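import Pool.Agent.Helper67.NX2.Defs
import Pool.Agent.Helper5.NX.Basic

/-!
# Project NX2, A22: reduction to block-constant top functions
-/

set_option autoImplicit false

open Finset
open scoped BigOperators ComplexConjugate

namespace Pool.Agent.Helper67.NX2

open Pool.Agent.Helper57.NX

noncomputable section

section Core

variable {N : ℕ} [NeZero N]

/-- sums over `ZMod N` as sums over `[0, N)` -/
private theorem sum_zmod92 (g : ZMod N → ℂ) : ∑ x, g x = ∑ t ∈ range N, g (t : ZMod N) := by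
  refine (sum_nbij' (fun t : ℕ => (t : ZMod N)) (fun x : ZMod N => x.val) ?_ ?_ ?_ ?_ ?_).symm
  · intro t _; exact mem_univ _
  · intro x _; exact mem_range.2 (ZMod.val_lt x)
  · intro t ht; exact ZMod.val_cast_of_lt (mem_range.1 ht)
  · intro x _; exact ZMod.natCast_zmod_val x
  · intro t _; rfl

/-- division with remainder in sums -/
private theorem sum_mul92 (G : ℕ → ℂ) (Q p : ℕ) :
    ∑ t ∈ range (Q * p), G t = ∑ z ∈ range p, ∑ r ∈ range Q, G (Q * z + r) := by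
  induction p with
  | zero => simp
  | succ p ih => rw [Nat.mul_succ, sum_range_add, ih, sum_range_succ]

/-- average over `ZMod (Q p)` -/
private theorem expect_fib92 {Q p : ℕ} (hN : N = Q * p) (g : ZMod N → ℂ) :
    𝔼 x, g x = (∑ r ∈ range Q, (∑ z ∈ range p, g ((Q * z + r : ℕ) : ZMod N)) / p) / Q := by
  have h1 : ∑ t ∈ range N, g (t : ZMod N) =
      ∑ r ∈ range Q, ∑ z ∈ range p, g ((Q * z + r : ℕ) : ZMod N) := by
    have h2 := sum_mul92 (fun t => g (t : ZMod N)) Q p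
    rw [← hN, sum_comm] at h2
    exact h2
  rw [Fintype.expect_eq_sum_div_card, ZMod.card, sum_zmod92, h1, ← sum_div, div_div]
  congr 1
  rw [hN]
  push_cast
  ring

/-- the value at `Q z + r` -/
private theorem val92 {Q p z r : ℕ} (hN : N = Q * p) (hz : z < p) (hr : r < Q) :
    (((Q * z + r : ℕ) : ZMod N)).val = Q * z + r := by
  apply ZMod.val_cast_of_lt
  rw [hN]
  calc Q * z + r < Q * z + Q := by omega
    _ = Q * (z + 1) := by ring
    _ ≤ Q * p := Nat.mul_le_mul_left _ hz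

/-- adding a multiple of `Q` does not change the remainder mod `Q` -/
private theorem mod92 {Q p z r : ℕ} (hN : N = Q * p) (hr : r < Q) (b : ℤ) :
    ((((Q * z + r : ℕ) : ZMod N) + ((Q * b : ℤ) : ZMod N)).val) % Q = r := by
  have hd : Q ∣ N := ⟨p, hN⟩
  have hQ : 0 < Q := by omega
  have : NeZero Q := ⟨by omega⟩
  set y : ZMod N := ((Q * z + r : ℕ) : ZMod N) + ((Q * b : ℤ) : ZMod N) with hy
  have h1 : (ZMod.castHom hd (ZMod Q)) y = (r : ZMod Q) := by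
    rw [hy, map_add, map_natCast, map_intCast]
    push_cast
    simp
  have h2 : (ZMod.castHom hd (ZMod Q)) y = ((y.val : ℕ) : ZMod Q) := by
    conv_lhs => rw [← ZMod.natCast_zmod_val y]
    rw [map_natCast]
  rw [h2] at h1
  have h3 := (ZMod.natCast_eq_natCast_iff' _ _ _).1 h1
  rw [h3, Nat.mod_eq_of_lt hr]

/-- the block-constant argument -/
private theorem arg92 {Q p z r r0 : ℕ} (hN : N = Q * p) (hr : r < Q) (b : ℤ) :
    ((Q * ((((Q * z + r : ℕ) : ZMod N) + ((Q * b : ℤ) : ZMod N)).val / Q) + r0 : ℕ) : ZMod N) =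
      ((Q * z + r0 : ℕ) : ZMod N) + ((Q * b : ℤ) : ZMod N) := by
  set y : ZMod N := ((Q * z + r : ℕ) : ZMod N) + ((Q * b : ℤ) : ZMod N) with hy
  have h1 : y.val % Q = r := mod92 hN hr b
  have h2 : Q * (y.val / Q) + y.val % Q = y.val := Nat.div_add_mod _ _
  rw [h1] at h2
  have h3 : ((Q * (y.val / Q) : ℕ) : ZMod N) + (r : ZMod N) = y := by
    rw [← Nat.cast_add, h2, ZMod.natCast_zmod_val]
  have h4 : ((Q * (y.val / Q) : ℕ) : ZMod N) = y - (r : ZMod N) := eq_sub_of_add_eq h3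
  rw [Nat.cast_add, h4, hy]
  push_cast
  ring

/-- the core: freezing the residue of the top function -/
private theorem core92 {Q p ℓ : ℕ} (hN : N = Q * p) (hQ : 1 ≤ Q) {B δ : ℝ} (hℓ : 1 ≤ ℓ)
    (I : Finset ℕ) (H : ℕ → ZMod N → ℂ) (hH : ∀ k, Adm B Q (H k)) (b : ℕ → ℤ) (g : ZMod N → ℂ)
    (hg : ∀ x, ‖g x‖ ≤ 1) (hB : (2 * B + 1) * ℓ < δ / 2 * Q)
    (h : δ ≤ ‖𝔼 k ∈ I, 𝔼 x : ZMod N, H k x * g (x + ((Q * b k : ℤ) : ZMod N))‖) :
    ∃ r0 : ℕ, r0 + ℓ ≤ Q ∧ (ℓ : ℝ) / Q * (δ / 2) ≤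
      ‖𝔼 k ∈ I, 𝔼 x : ZMod N, ((if r0 ≤ x.val % Q ∧ x.val % Q < r0 + ℓ then (1 : ℂ) else 0) *
        H k x) * g ((Q * ((x + ((Q * b k : ℤ) : ZMod N)).val / Q) + r0 : ℕ) : ZMod N)‖ := by
  have hQ0 : (0 : ℝ) < Q := by exact_mod_cast hQ
  have hp : 1 ≤ p := by
    rcases Nat.eq_zero_or_pos p with h0 | h0
    · exfalso; apply NeZero.ne N; rw [hN, h0, mul_zero]
    · exact h0
  have hp0 : (0 : ℝ) < p := by exact_mod_cast hp
  set T : ℕ → ℕ → ℕ → ℕ → ℂ := fun k r' r z => H k ((Q * z + r' : ℕ) : ZMod N) *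
    g (((Q * z + r : ℕ) : ZMod N) + ((Q * b k : ℤ) : ZMod N)) with hT
  set Ψ : ℕ → ℕ → ℂ := fun r' r => 𝔼 k ∈ I, (∑ z ∈ range p, T k r' r z) / p with hΨ
  set Δ : ℕ → ℝ := fun r => 𝔼 k ∈ I, (∑ z ∈ range p, ∑ t ∈ range ℓ,
    ‖H k (((Q * z + r : ℕ) : ZMod N) + (t : ZMod N) + 1) -
      H k (((Q * z + r : ℕ) : ZMod N) + (t : ZMod N))‖) / p with hΔ
  -- (1)
  have h1 : 𝔼 k ∈ I, 𝔼 x : ZMod N, H k x * g (x + ((Q * b k : ℤ) : ZMod N)) =
      (∑ r ∈ range Q, Ψ r r) / Q := by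
    rw [hΨ]
    simp only
    rw [← expect_sum_comm, expect_div]
    refine expect_congr rfl fun k _ => ?_
    rw [expect_fib92 hN]
  -- (2)
  have h2 : ∀ r0 : ℕ, r0 + ℓ ≤ Q → 𝔼 k ∈ I, 𝔼 x : ZMod N,
      ((if r0 ≤ x.val % Q ∧ x.val % Q < r0 + ℓ then (1 : ℂ) else 0) *
        H k x) * g ((Q * ((x + ((Q * b k : ℤ) : ZMod N)).val / Q) + r0 : ℕ) : ZMod N) =
      (∑ s ∈ range ℓ, Ψ (r0 + s) r0) / Q := by
    intro r0 hr0
    rw [hΨ]
    simp only
    rw [← expect_sum_comm, expect_div]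
    refine expect_congr rfl fun k _ => ?_
    rw [expect_fib92 hN]
    congr 1
    have h3 : ∀ r ∈ range Q, (∑ z ∈ range p,
        ((if r0 ≤ (((Q * z + r : ℕ) : ZMod N)).val % Q ∧
            (((Q * z + r : ℕ) : ZMod N)).val % Q < r0 + ℓ then (1 : ℂ) else 0) *
          H k ((Q * z + r : ℕ) : ZMod N)) *
          g ((Q * ((((Q * z + r : ℕ) : ZMod N) + ((Q * b k : ℤ) : ZMod N)).val / Q) + r0 : ℕ) :
            ZMod N)) / (p : ℂ) =
        if r ∈ Ico r0 (r0 + ℓ) then (∑ z ∈ range p, T k r r0 z) / (p : ℂ) else 0 := by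
      intro r hr
      have hr' := mem_range.1 hr
      have h4 : ∀ z ∈ range p, ((if r0 ≤ (((Q * z + r : ℕ) : ZMod N)).val % Q ∧
            (((Q * z + r : ℕ) : ZMod N)).val % Q < r0 + ℓ then (1 : ℂ) else 0) *
          H k ((Q * z + r : ℕ) : ZMod N)) *
          g ((Q * ((((Q * z + r : ℕ) : ZMod N) + ((Q * b k : ℤ) : ZMod N)).val / Q) + r0 : ℕ) :
            ZMod N) = if r ∈ Ico r0 (r0 + ℓ) then T k r r0 z else 0 := by
        intro z hz
        rw [val92 hN (mem_range.1 hz) hr', Nat.mul_add_mod, Nat.mod_eq_of_lt hr', arg92 hN hr']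
        by_cases h5 : r0 ≤ r ∧ r < r0 + ℓ
        · rw [if_pos h5, if_pos (mem_Ico.2 h5), one_mul]
        · rw [if_neg h5, if_neg (fun h6 => h5 (mem_Ico.1 h6)), zero_mul, zero_mul]
      rw [sum_congr rfl h4]
      split_ifs with h5
      · rfl
      · simp
    rw [sum_congr rfl h3, ← sum_filter]
    have h6 : (range Q).filter (fun r => r ∈ Ico r0 (r0 + ℓ)) = Ico r0 (r0 + ℓ) := by
      ext r
      simp only [mem_filter, mem_range, mem_Ico]
      constructor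
      · rintro ⟨_, h⟩; exact h
      · intro h; exact ⟨by omega, h⟩
    rw [h6, sum_Ico_eq_sum_range, Nat.add_sub_cancel_left]
  -- (3)
  have h3 : ∀ r s : ℕ, s < ℓ → ‖Ψ (r + s) r - Ψ r r‖ ≤ Δ r := by
    intro r s hs
    rw [hΨ, hΔ]
    simp only
    rw [← expect_sub_distrib]
    refine (norm_expect_le5 _ _).trans (expect_le_expect fun k _ => ?_)
    rw [← sub_div, ← sum_sub_distrib, norm_div, Complex.norm_natCast]
    refine div_le_div_of_nonneg_right ?_ hp0.le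
    refine (norm_sum_le _ _).trans (sum_le_sum fun z _ => ?_)
    rw [hT]
    simp only
    rw [← sub_mul, norm_mul]
    refine (mul_le_of_le_one_right (norm_nonneg _) (hg _)).trans ?_
    have h4 : ((Q * z + (r + s) : ℕ) : ZMod N) = ((Q * z + r : ℕ) : ZMod N) + (s : ZMod N) := by
      push_cast; ring
    rw [h4]
    refine (norm_shift_nat5 (H k) _ s).trans ?_
    exact sum_le_sum_of_subset_of_nonneg (range_subset_range.2 hs.le) fun _ _ _ => norm_nonneg _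
  -- (4)
  have h4 : ∑ r ∈ range Q, Δ r ≤ 2 * B * ℓ := by
    rw [hΔ]
    simp only
    rw [← expect_sum_comm]
    have hB0 : 0 ≤ B := (hH 0).tv.nonneg
    refine expect_le_of5 _ _ (by positivity) fun k _ => ?_
    rw [← sum_div, div_le_iff₀ hp0, sum_comm]
    refine (sum_le_card_nsmul _ _ (2 * B * ℓ) fun z _ => ?_).trans (le_of_eq ?_)
    · rw [sum_comm]
      refine (sum_le_card_nsmul _ _ (2 * B) fun t _ => ?_).trans (le_of_eq ?_)
      · have h5 := (hH k).tv (((Q * z : ℕ) : ZMod N) + (t : ZMod N)) Q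
        rw [div_self hQ0.ne'] at h5
        refine le_trans (le_of_eq ?_) (h5.trans (le_of_eq (by ring)))
        refine sum_congr rfl fun r _ => ?_
        congr 3 <;> (push_cast; ring)
      · rw [card_range, nsmul_eq_mul]; ring
    · rw [card_range, nsmul_eq_mul]; ring
  -- (5)
  have h5 : ∃ r0 : ℕ, r0 + ℓ ≤ Q ∧ δ / 2 ≤ ‖Ψ r0 r0‖ - Δ r0 := by
    by_contra hc
    push Not at hc
    have h6 : δ * Q ≤ ∑ r ∈ range Q, ‖Ψ r r‖ := by
      rw [h1, norm_div, Complex.norm_natCast, le_div_iff₀ hQ0] at h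
      exact h.trans (norm_sum_le _ _)
    have hΨ1 : ∀ r, ‖Ψ r r‖ ≤ 1 := by
      intro r
      rw [hΨ]
      simp only
      refine norm_expect_le_of5 _ _ zero_le_one fun k _ => ?_
      rw [norm_div, Complex.norm_natCast, div_le_iff₀ hp0]
      refine (norm_sum_le _ _).trans ((sum_le_card_nsmul _ _ 1 fun z _ => ?_).trans ?_)
      · rw [hT]
        simp only
        rw [norm_mul]
        exact mul_le_one₀ ((hH k).bdd _) (norm_nonneg _) (hg _)
      · rw [card_range]; simp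
    have hΔ0 : ∀ r, 0 ≤ Δ r := by
      intro r
      rw [hΔ]
      simp only
      exact expect_nonneg fun k _ => div_nonneg (sum_nonneg fun _ _ => sum_nonneg fun _ _ =>
        norm_nonneg _) hp0.le
    have hℓQ : ℓ ≤ Q := by
      by_contra hlt
      push Not at hlt
      have hδ1 : δ ≤ 1 := by
        refine h.trans (norm_expect_le_of5 _ _ zero_le_one fun k _ =>
          norm_expect_le_of5 _ _ zero_le_one fun x _ => ?_)
        rw [norm_mul]
        exact mul_le_one₀ ((hH k).bdd _) (norm_nonneg _) (hg _)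
      have hB0 : 0 ≤ B := (hH 0).tv.nonneg
      have h7 : (Q : ℝ) < ℓ := by exact_mod_cast hlt
      have h8 : (ℓ : ℝ) ≤ (2 * B + 1) * ℓ := by nlinarith
      nlinarith
    have h7 : ∑ r ∈ range Q, ‖Ψ r r‖ ≤ ∑ r ∈ range Q, (δ / 2 + Δ r) + ℓ := by
      obtain ⟨M, hM⟩ := Nat.exists_eq_add_of_le hℓQ
      have h8 : range Q = range (ℓ + M) := by rw [hM]
      have h9 : ∑ r ∈ range Q, ‖Ψ r r‖ = ∑ r ∈ range M, ‖Ψ r r‖ +
          ∑ r ∈ range ℓ, ‖Ψ (M + r) (M + r)‖ := by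
        rw [h8, add_comm, sum_range_add]
      have h10 : ∑ r ∈ range Q, (δ / 2 + Δ r) = ∑ r ∈ range M, (δ / 2 + Δ r) +
          ∑ r ∈ range ℓ, (δ / 2 + Δ (M + r)) := by
        rw [h8, add_comm, sum_range_add]
      rw [h9, h10]
      have h11 : ∑ r ∈ range M, ‖Ψ r r‖ ≤ ∑ r ∈ range M, (δ / 2 + Δ r) := by
        refine sum_le_sum fun r hr => ?_
        have := hc r (by have := mem_range.1 hr; omega)
        linarith
      have h12 : ∑ r ∈ range ℓ, ‖Ψ (M + r) (M + r)‖ ≤ ℓ := by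
        refine (sum_le_card_nsmul _ _ 1 fun r _ => hΨ1 _).trans ?_
        rw [card_range]; simp
      have hδ0 : 0 < δ := by
        by_contra hneg
        push Not at hneg
        have hB0 : 0 ≤ B := (hH 0).tv.nonneg
        have h13 : δ / 2 * Q ≤ 0 := mul_nonpos_of_nonpos_of_nonneg (by linarith) hQ0.le
        have h14 : 0 ≤ (2 * B + 1) * (ℓ : ℝ) := by positivity
        linarith
      have h15 : 0 ≤ ∑ r ∈ range ℓ, (δ / 2 + Δ (M + r)) :=
        sum_nonneg fun r _ => add_nonneg (by linarith) (hΔ0 _)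
      linarith
    rw [sum_add_distrib, sum_const, card_range, nsmul_eq_mul] at h7
    nlinarith
  -- (6)
  obtain ⟨r0, hr0, h6⟩ := h5
  refine ⟨r0, hr0, ?_⟩
  rw [h2 r0 hr0, norm_div, Complex.norm_natCast, div_mul_eq_mul_div]
  refine div_le_div_of_nonneg_right ?_ hQ0.le
  have h7 : ∑ s ∈ range ℓ, Ψ (r0 + s) r0 =
      (ℓ : ℂ) * Ψ r0 r0 + ∑ s ∈ range ℓ, (Ψ (r0 + s) r0 - Ψ r0 r0) := by
    rw [sum_sub_distrib, sum_const, card_range, nsmul_eq_mul]; ring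
  have h8 : ‖∑ s ∈ range ℓ, (Ψ (r0 + s) r0 - Ψ r0 r0)‖ ≤ ℓ * Δ r0 := by
    refine (norm_sum_le _ _).trans ((sum_le_card_nsmul _ _ (Δ r0) fun s hs =>
      h3 r0 s (mem_range.1 hs)).trans (le_of_eq ?_))
    rw [card_range, nsmul_eq_mul]
  have h9 : ‖(ℓ : ℂ) * Ψ r0 r0‖ = ℓ * ‖Ψ r0 r0‖ := by
    rw [norm_mul, Complex.norm_natCast]
  rw [h7]
  have h10 := norm_sub_norm_le ((ℓ : ℂ) * Ψ r0 r0) (-(∑ s ∈ range ℓ, (Ψ (r0 + s) r0 - Ψ r0 r0)))
  rw [norm_neg, sub_neg_eq_add, h9] at h10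
  have h11 : (ℓ : ℝ) * (δ / 2) ≤ ℓ * (‖Ψ r0 r0‖ - Δ r0) :=
    mul_le_mul_of_nonneg_left h6 (Nat.cast_nonneg _)
  have h12 : (ℓ : ℝ) * (‖Ψ r0 r0‖ - Δ r0) = ℓ * ‖Ψ r0 r0‖ - ℓ * Δ r0 := by ring
  linarith

/-- numbers with a given residue in an interval -/
private theorem cnt92 {Q : ℕ} (hQ : 1 ≤ Q) (v a l : ℕ) :
    (#((range l).filter fun j => (v + j) % Q = a) : ℝ) ≤ l / Q + 1 := by
  have hQ0 : (0 : ℝ) < Q := by exact_mod_cast hQ
  have h1 : #((range l).filter fun j => (v + j) % Q = a) ≤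
      #((Ico v (v + l)).filter fun x => x ≡ a [MOD Q]) := by
    refine card_le_card_of_injOn (fun j => v + j) ?_ ?_
    · intro j hj
      simp only [coe_filter, mem_range, Set.mem_ofPred_eq, mem_Ico] at hj ⊢
      refine ⟨⟨by omega, by omega⟩, ?_⟩
      unfold Nat.ModEq
      rw [← hj.2, Nat.mod_mod]
    · intro j _ j' _ h
      exact Nat.add_left_cancel h
  have h2 := Nat.Ico_filter_modEq_card v (v + l) (show 0 < Q by omega) a
  have h3 : ((max (⌈(((v + l : ℕ) : ℚ) - a) / (Q : ℚ)⌉ - ⌈((v : ℚ) - a) / (Q : ℚ)⌉) 0 : ℤ) : ℝ) ≤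
      l / Q + 1 := by
    rw [Int.cast_max, Int.cast_zero]
    refine max_le ?_ (by positivity)
    have h4 : (⌈(((v + l : ℕ) : ℚ) - a) / (Q : ℚ)⌉ : ℝ) < ((((v + l : ℕ) : ℚ) - a) / (Q : ℚ) : ℚ) + 1 := by
      exact_mod_cast Int.ceil_lt_add_one _
    have h5 : ((((v : ℚ) - a) / (Q : ℚ) : ℚ) : ℝ) ≤ ⌈((v : ℚ) - a) / (Q : ℚ)⌉ := by
      exact_mod_cast Int.le_ceil _
    push_cast at h4 h5 ⊢
    have h6 : ((v : ℝ) + l - a) / Q = ((v : ℝ) - a) / Q + l / Q := by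
      field_simp; ring
    linarith
  have h7 : (#((Ico v (v + l)).filter fun x => x ≡ a [MOD Q]) : ℝ) ≤ l / Q + 1 := by
    refine le_trans (le_of_eq ?_) h3
    exact_mod_cast h2
  exact le_trans (by exact_mod_cast h1) h7

/-- jumps of the indicator of an interval of residues -/
private theorem jump92 {Q : ℕ} (hQ : 1 ≤ Q) {r0 ℓ : ℕ} (hr : r0 + ℓ ≤ Q) (w : ℕ) :
    ‖(if r0 ≤ (w + 1) % Q ∧ (w + 1) % Q < r0 + ℓ then (1 : ℂ) else 0) -
      (if r0 ≤ w % Q ∧ w % Q < r0 + ℓ then (1 : ℂ) else 0)‖ ≤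
    (if (w + 1) % Q = r0 % Q then (1 : ℝ) else 0) +
      (if (w + 1) % Q = (r0 + ℓ) % Q then (1 : ℝ) else 0) := by
  have hu : w % Q < Q := Nat.mod_lt _ (by omega)
  have h1 : (w + 1) % Q = (w % Q + 1) % Q := (Nat.mod_add_mod _ _ _).symm
  rw [h1]
  set u := w % Q with hu'
  have h2 : (u + 1) % Q = if u + 1 = Q then 0 else u + 1 := by
    split_ifs with h
    · rw [h, Nat.mod_self]
    · exact Nat.mod_eq_of_lt (by omega)
  rw [h2]
  set u' := (if u + 1 = Q then 0 else u + 1) with hu''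
  have h0 : (0 : ℝ) ≤ (if u' = r0 % Q then (1 : ℝ) else 0) := by split_ifs <;> norm_num
  have h0' : (0 : ℝ) ≤ (if u' = (r0 + ℓ) % Q then (1 : ℝ) else 0) := by split_ifs <;> norm_num
  by_cases ha : r0 ≤ u' ∧ u' < r0 + ℓ <;> by_cases hb : r0 ≤ u ∧ u < r0 + ℓ
  · rw [if_pos ha, if_pos hb, sub_self, norm_zero]; positivity
  · rw [if_pos ha, if_neg hb, sub_zero, norm_one]
    have h3 : u' = r0 % Q := by
      have h4 : r0 % Q = r0 := Nat.mod_eq_of_lt (by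
        have : u' < Q := by rw [hu'']; split_ifs <;> omega
        omega)
      rw [h4]
      by_cases h5 : u + 1 = Q
      · rw [if_pos h5] at hu''; omega
      · rw [if_neg h5] at hu''; omega
    rw [if_pos h3]
    linarith
  · rw [if_neg ha, if_pos hb, zero_sub, norm_neg, norm_one]
    have h3 : u' = (r0 + ℓ) % Q := by
      by_cases h5 : u + 1 = Q
      · rw [if_pos h5] at hu''
        have h6 : r0 + ℓ = Q := by omega
        rw [h6, Nat.mod_self, hu'']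
      · rw [if_neg h5] at hu''
        have h6 : u' = r0 + ℓ := by omega
        rw [← h6, Nat.mod_eq_of_lt (by omega)]
    rw [if_pos h3]
    linarith
  · rw [if_neg ha, if_neg hb, sub_self, norm_zero]; positivity

/-- the indicator of an interval of residues -/
private theorem ind92 {Q p : ℕ} (hN : N = Q * p) (hQ : 1 ≤ Q) {r0 ℓ : ℕ} (hr : r0 + ℓ ≤ Q) :
    Adm 2 Q (fun x : ZMod N => if r0 ≤ x.val % Q ∧ x.val % Q < r0 + ℓ then (1 : ℂ) else 0) := by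
  have hQ0 : (0 : ℝ) < Q := by exact_mod_cast hQ
  refine ⟨fun x => ?_, fun x l => ?_⟩
  · split_ifs <;> simp
  · have hd : Q ∣ N := ⟨p, hN⟩
    have hval : ∀ j : ℕ, (x + (j : ZMod N)).val % Q = (x.val + j) % Q := by
      intro j
      rw [ZMod.val_add, ZMod.val_natCast, Nat.mod_mod_of_dvd _ hd]
      conv_rhs => rw [Nat.add_mod]
      rw [Nat.add_mod, Nat.mod_mod_of_dvd _ hd]
    have h1 : ∀ j ∈ range l, ‖(if r0 ≤ (x + (j : ZMod N) + 1).val % Q ∧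
        (x + (j : ZMod N) + 1).val % Q < r0 + ℓ then (1 : ℂ) else 0) -
          (if r0 ≤ (x + (j : ZMod N)).val % Q ∧ (x + (j : ZMod N)).val % Q < r0 + ℓ then
            (1 : ℂ) else 0)‖ ≤
        (if (x.val + 1 + j) % Q = r0 % Q then (1 : ℝ) else 0) +
          (if (x.val + 1 + j) % Q = (r0 + ℓ) % Q then (1 : ℝ) else 0) := by
      intro j _
      have h2 : x + (j : ZMod N) + 1 = x + ((j + 1 : ℕ) : ZMod N) := by push_cast; ring
      rw [h2, hval j, hval (j + 1)]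
      have h3 : x.val + 1 + j = x.val + j + 1 := by omega
      have h4 : x.val + (j + 1) = x.val + j + 1 := by omega
      rw [h3, h4]
      exact jump92 hQ hr _
    refine (sum_le_sum h1).trans ?_
    rw [sum_add_distrib, ← sum_filter, ← sum_filter, sum_const, sum_const, nsmul_eq_mul,
      nsmul_eq_mul, mul_one, mul_one]
    have h5 := cnt92 hQ (x.val + 1) (r0 % Q) l
    have h6 := cnt92 hQ (x.val + 1) ((r0 + ℓ) % Q) l
    linarith

end Core

/-- the last sequence at a natural exponent -/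
private theorem a_last92 {m : ℕ} {c : Fin (m + 1) → ℝ} {d : ℕ} (hd : c (Fin.last m) = d)
    {S : Sys (m + 1)} {N lam : ℕ} {x : ℝ} (hD : 0 < S.D) (h : IG S c N x lam) {r : ℕ}
    (hr : S.ρ * lam = r) (k : ℕ) :
    S.a c (Fin.last m) k = (S.Q : ℤ) * (((lam * k + r) ^ d : ℕ) : ℤ) := by
  unfold Sys.a Sys.t
  rw [h.Pint (Fin.last m) d hd, hd, Real.rpow_natCast]
  have h1 : (S.Q : ℝ) * ((lam : ℝ) * S.D) ^ d * (((k : ℝ) + S.ρ) / S.D) ^ d =
      (((S.Q : ℤ) * (((lam * k + r) ^ d : ℕ) : ℤ) : ℤ) : ℝ) := by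
    push_cast
    rw [← hr, mul_assoc, ← mul_pow]
    congr 2
    field_simp
  rw [h1, Int.floor_intCast]

theorem bc (m : ℕ) : ∃ C : ℕ, ∀ (c : Fin (m + 1) → ℝ) (d : ℕ) (_ : c (Fin.last m) = d)
    (S : Sys (m + 1)) (N : ℕ) [NeZero N] (lam : ℕ) (x : ℝ), 1 ≤ S.D → IG S c N x lam →
    ∀ δ : ℝ, 0 < δ → δ ≤ 1 / 2 → δ⁻¹ ^ C ≤ S.Q →
    ∀ (f0 : ZMod N → ℂ) (f : Fin m → ZMod N → ℂ) (g : ZMod N → ℂ),
    Adm δ⁻¹ S.Q f0 → (∀ i, Adm δ⁻¹ S.Q (f i)) → (∀ x, ‖g x‖ ≤ 1) →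
    δ ≤ ‖form S c 1 f0 (Fin.snoc (α := fun _ => ZMod N → ℂ) f g)‖ →
    ∃ e : ℕ, e < S.Q ∧ ∃ f0' : ZMod N → ℂ, Adm (δ⁻¹ ^ 3) S.Q f0' ∧
      δ ^ C ≤ ‖form S c 1 f0' (Fin.snoc (α := fun _ => ZMod N → ℂ) f
        (fun x => g ((S.Q * (x.val / S.Q) + e : ℕ) : ZMod N)))‖ := by
  refine ⟨m + 9, ?_⟩
  intro c d hd S N _ lam x hD hIG δ hδ0 hδ1 hQC f0 f g hf0 hf hg hform
  have hD0 : 0 < S.D := by linarith
  obtain ⟨r, hr⟩ := hIG.rho
  obtain ⟨p, hp, hN⟩ := hIG.prime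
  have hδi : (2 : ℝ) ≤ δ⁻¹ := by
    rw [le_inv_comm₀ (by norm_num) hδ0]; linarith
  have hm1 : (1 : ℝ) ≤ (m : ℝ) + 1 := by
    have : (0 : ℝ) ≤ m := Nat.cast_nonneg m
    linarith
  have hm2 : (m : ℝ) + 1 ≤ 2 ^ m := by
    have : m + 1 ≤ 2 ^ m := Nat.lt_two_pow_self
    exact_mod_cast this
  have hQ0 : (0 : ℝ) < S.Q := lt_of_lt_of_le (by positivity) hQC
  have hQ : 1 ≤ S.Q := by exact_mod_cast (Nat.cast_pos.1 hQ0)
  -- the functions `H k`
  set H : ℕ → ZMod N → ℂ := fun k x => f0 x * ∏ i : Fin m, f i (x + (S.a c i.castSucc k : ZMod N))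
    with hHdef
  have hH : ∀ k, Adm ((m + 1) * δ⁻¹) S.Q (H k) := by
    intro k
    have h1 := hf0.mul (Adm.prod (univ : Finset (Fin m)) (B := fun _ => δ⁻¹) hQ0
      (fun i _ => (hf i).shift (S.a c i.castSucc k : ZMod N)))
    rw [sum_const, card_univ, Fintype.card_fin, nsmul_eq_mul] at h1
    refine h1.mono (le_of_eq (by ring)) hQ0 le_rfl
  set b : ℕ → ℤ := fun k => (((lam * k + r) ^ d : ℕ) : ℤ) with hb
  have hformH : ∀ (f0' : ZMod N → ℂ) (g' : ZMod N → ℂ),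
      form S c 1 f0' (Fin.snoc (α := fun _ => ZMod N → ℂ) f g') =
      𝔼 k ∈ S.I, 𝔼 x : ZMod N, (f0' x * ∏ i : Fin m, f i (x + (S.a c i.castSucc k : ZMod N))) *
        g' (x + ((S.Q * b k : ℤ) : ZMod N)) := by
    intro f0' g'
    unfold form
    refine expect_congr rfl fun k _ => ?_
    rw [Pi.one_apply, one_mul]
    refine expect_congr rfl fun x _ => ?_
    rw [Fin.prod_univ_castSucc, Fin.snoc_last, a_last92 hd hD0 hIG hr k]
    simp only [Fin.snoc_castSucc]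
    ring
  rw [hformH] at hform
  -- the length
  set y : ℝ := δ ^ 2 * S.Q / (12 * (m + 1)) with hy
  have hy1 : 1 ≤ y := by
    rw [hy, le_div_iff₀ (by positivity), one_mul]
    have h1 : δ ^ 2 * δ⁻¹ ^ (m + 9) ≤ δ ^ 2 * S.Q := mul_le_mul_of_nonneg_left hQC (by positivity)
    have h2 : δ ^ 2 * δ⁻¹ ^ (m + 9) = δ⁻¹ ^ (m + 7) := by
      rw [show m + 9 = 2 + (m + 7) by ring, pow_add, ← mul_assoc, ← mul_pow,
        mul_inv_cancel₀ hδ0.ne', one_pow, one_mul]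
    have h3 : (2 : ℝ) ^ (m + 7) ≤ δ⁻¹ ^ (m + 7) := pow_le_pow_left₀ (by norm_num) hδi _
    have h4 : (2 : ℝ) ^ (m + 7) = 128 * 2 ^ m := by rw [pow_add]; norm_num; ring
    nlinarith
  obtain ⟨e0, he0, he1⟩ := core92 (ℓ := ⌊y⌋₊) (B := (m + 1) * δ⁻¹) (δ := δ) hN hQ
    (Nat.le_floor (by exact_mod_cast hy1)) S.I H hH b g hg (by
      have h1 : (⌊y⌋₊ : ℝ) ≤ y := Nat.floor_le (by linarith)
      have h2 : (2 * (((m : ℝ) + 1) * δ⁻¹) + 1) ≤ 3 * (((m : ℝ) + 1) * δ⁻¹) := by nlinarith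
      have h3 : 0 < ((m : ℝ) + 1) * δ⁻¹ := by positivity
      calc (2 * (((m : ℝ) + 1) * δ⁻¹) + 1) * (⌊y⌋₊ : ℝ)
          ≤ 3 * (((m : ℝ) + 1) * δ⁻¹) * y := mul_le_mul h2 h1 (Nat.cast_nonneg _) (by positivity)
        _ = δ / 4 * S.Q := by rw [hy]; field_simp; norm_num
        _ < δ / 2 * S.Q := by nlinarith) hform
  have hfl : 1 ≤ ⌊y⌋₊ := Nat.le_floor (by exact_mod_cast hy1)
  refine ⟨e0, by omega, fun x => (if e0 ≤ x.val % S.Q ∧ x.val % S.Q < e0 + ⌊y⌋₊ then (1 : ℂ)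
    else 0) * f0 x, ?_, ?_⟩
  · refine ((ind92 hN hQ he0).mul hf0).mono ?_ hQ0 le_rfl
    have h1 : δ⁻¹ ^ 3 = δ⁻¹ * δ⁻¹ ^ 2 := by ring
    rw [h1]
    nlinarith
  · rw [hformH]
    have h1 : (𝔼 k ∈ S.I, 𝔼 x : ZMod N, ((if e0 ≤ x.val % S.Q ∧ x.val % S.Q < e0 + ⌊y⌋₊ then
        (1 : ℂ) else 0) * f0 x * ∏ i : Fin m, f i (x + (S.a c i.castSucc k : ZMod N))) *
          g ((S.Q * ((x + ((S.Q * b k : ℤ) : ZMod N)).val / S.Q) + e0 : ℕ) : ZMod N)) =
        𝔼 k ∈ S.I, 𝔼 x : ZMod N, ((if e0 ≤ x.val % S.Q ∧ x.val % S.Q < e0 + ⌊y⌋₊ then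
        (1 : ℂ) else 0) * H k x) *
          g ((S.Q * ((x + ((S.Q * b k : ℤ) : ZMod N)).val / S.Q) + e0 : ℕ) : ZMod N) := by
      refine expect_congr rfl fun k _ => expect_congr rfl fun x _ => ?_
      rw [hHdef]
      ring
    rw [h1]
    refine le_trans ?_ he1
    have h2 : y / 2 ≤ (⌊y⌋₊ : ℝ) := by
      have h3 := Nat.lt_floor_add_one y
      have h4 : (1 : ℝ) ≤ ⌊y⌋₊ := by exact_mod_cast hfl
      linarith
    have h5 : δ ^ 3 / (48 * (m + 1)) ≤ (⌊y⌋₊ : ℝ) / S.Q * (δ / 2) := by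
      calc δ ^ 3 / (48 * (m + 1)) = y / 2 / S.Q * (δ / 2) := by rw [hy]; field_simp; norm_num
        _ ≤ _ := by gcongr
    refine le_trans ?_ h5
    rw [le_div_iff₀ (by positivity)]
    have h6 : δ ^ (m + 6) ≤ (1 / 2) ^ (m + 6) := pow_le_pow_left₀ hδ0.le hδ1 _
    have h7 : ((1 : ℝ) / 2) ^ (m + 6) * (48 * (m + 1)) ≤ 1 := by
      rw [one_div, inv_pow, inv_mul_le_iff₀ (by positivity), pow_add]
      nlinarith
    have h8 : δ ^ (m + 9) = δ ^ 3 * δ ^ (m + 6) := by rw [← pow_add]; congr 1; ring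
    rw [h8, mul_assoc]
    refine mul_le_of_le_one_right (by positivity) ?_
    refine le_trans (mul_le_mul_of_nonneg_right h6 (by positivity)) h7

end

end Pool.Agent.Helper67.NX2
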