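import Pool.Agent.Helper67.NX2.DefsB
import Pool.Agent.Helper5.NX.Basic

/-!
# Project NX2, Part B, module B9: Parseval for `∏ (u_p - 1)`
-/

set_option autoImplicit false

open Finset
open scoped BigOperators ComplexConjugate

namespace Pool.Agent.Helper67.NX2

open Pool.Agent.Helper57.NX

noncomputable section

/-- the frequencies of `∏ (u_p - 1)` -/
def AE (r1 : ℕ) (E : Finset ℕ) : Finset ℕ :=
  (range (∏ p ∈ E, p ^ r1)).filter (fun a => ∀ p ∈ E, ¬ p ^ r1 ∣ a)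

private theorem e_eq_one_iff' (t : ℝ) : e t = 1 ↔ ∃ k : ℤ, t = k := by
  unfold e
  rw [Complex.exp_eq_one_iff]
  constructor
  · rintro ⟨k, hk⟩
    refine ⟨k, ?_⟩
    have h1 : (2 * (Real.pi : ℂ) * Complex.I) * (t : ℂ) = (2 * (Real.pi : ℂ) * Complex.I) * (k : ℂ) := by
      rw [show (2 * (Real.pi : ℂ) * Complex.I) * (t : ℂ) = 2 * Real.pi * t * Complex.I by ring, hk]
      ring
    have h2 := mul_left_cancel₀ Complex.two_pi_I_ne_zero h1
    exact_mod_cast h2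
  · rintro ⟨k, rfl⟩
    refine ⟨k, ?_⟩
    push_cast
    ring

private theorem e_nat_mul' (a : ℕ) (t : ℝ) : e (a * t) = e t ^ a := by
  unfold e
  rw [← Complex.exp_nat_mul]
  congr 1
  push_cast
  ring

/-- orthogonality -/
private theorem orth (n : ℕ) (hn : 1 ≤ n) (m : ℤ) :
    ∑ a ∈ range n, e ((a : ℝ) * m / n) = if (n : ℤ) ∣ m then (n : ℂ) else 0 := by
  have hn0 : (n : ℝ) ≠ 0 := by positivity
  have h1 : ∀ a ∈ range n, e ((a : ℝ) * m / n) = e ((m : ℝ) / n) ^ a := by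
    intro a _
    rw [← e_nat_mul', mul_div_assoc]
  rw [sum_congr rfl h1]
  split_ifs with h
  · obtain ⟨k, rfl⟩ := h
    have h2 : e ((((n : ℤ) * k : ℤ) : ℝ) / n) = 1 := by
      rw [e_eq_one_iff']
      refine ⟨k, ?_⟩
      push_cast
      field_simp
    rw [sum_congr rfl fun a _ => by rw [h2, one_pow]]
    simp
  · have h2 : e ((m : ℝ) / n) ≠ 1 := by
      rw [Ne, e_eq_one_iff']
      rintro ⟨k, hk⟩
      apply h
      refine ⟨k, ?_⟩
      rw [div_eq_iff hn0] at hk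
      have : (m : ℝ) = ((n : ℤ) * k : ℤ) := by rw [hk]; push_cast; ring
      exact_mod_cast this
    rw [geom_sum_eq h2, ← e_nat_mul']
    have h3 : e ((n : ℝ) * ((m : ℝ) / n)) = 1 := by
      rw [e_eq_one_iff']
      exact ⟨m, by field_simp⟩
    rw [h3]
    simp

private theorem orth_dvd (n d : ℕ) (hn : 1 ≤ n) (hd : 1 ≤ d) (m : ℤ) :
    ∑ a ∈ (range (d * n)).filter (fun a => d ∣ a), e ((a : ℝ) * m / ((d * n : ℕ) : ℝ)) =
      if (n : ℤ) ∣ m then (n : ℂ) else 0 := by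
  rw [← orth n hn m]
  symm
  refine sum_nbij' (fun b => d * b) (fun a => a / d) ?_ ?_ ?_ ?_ ?_
  · intro b hb
    rw [mem_filter, mem_range]
    rw [mem_range] at hb
    exact ⟨Nat.mul_lt_mul_of_pos_left hb hd, dvd_mul_right _ _⟩
  · intro a ha
    rw [mem_filter, mem_range] at ha
    rw [mem_range]
    exact Nat.div_lt_of_lt_mul ha.1
  · intro b _
    simp [Nat.mul_div_cancel_left b hd]
  · intro a ha
    rw [mem_filter] at ha
    exact Nat.mul_div_cancel' ha.2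
  · intro b _
    congr 1
    have hn0 : (n : ℝ) ≠ 0 := by positivity
    have hd0 : (d : ℝ) ≠ 0 := by positivity
    push_cast
    field_simp

private theorem prod_ite_dvd (q : ℕ → ℕ) (T : Finset ℕ)
    (hq : ∀ p ∈ T, ∀ p' ∈ T, p ≠ p' → Nat.Coprime (q p) (q p')) (m : ℤ) :
    ∏ p ∈ T, (if (q p : ℤ) ∣ m then (q p : ℂ) else 0) =
      if ((∏ p ∈ T, q p : ℕ) : ℤ) ∣ m then ((∏ p ∈ T, q p : ℕ) : ℂ) else 0 := by
  by_cases h : ∀ p ∈ T, (q p : ℤ) ∣ m
  · have h1 : ((∏ p ∈ T, q p : ℕ) : ℤ) ∣ m := by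
      push_cast
      refine Finset.prod_dvd_of_coprime ?_ h
      intro p hp p' hp' hne
      exact Nat.isCoprime_iff_coprime.mpr (hq p hp p' hp' hne)
    rw [if_pos h1]
    push_cast
    exact prod_congr rfl fun p hp => if_pos (h p hp)
  · have h1 : ¬ ((∏ p ∈ T, q p : ℕ) : ℤ) ∣ m := by
      intro h2
      apply h
      intro p hp
      refine dvd_trans ?_ h2
      exact_mod_cast dvd_prod_of_mem q hp
    rw [if_neg h1]
    push Not at h
    obtain ⟨p, hp, hpm⟩ := h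
    exact prod_eq_zero hp (if_neg hpm)

private theorem prod_sub_one (q : ℕ → ℕ) (E : Finset ℕ) (hq1 : ∀ p ∈ E, 1 ≤ q p)
    (hq : ∀ p ∈ E, ∀ p' ∈ E, p ≠ p' → Nat.Coprime (q p) (q p')) (m : ℤ) :
    ∏ p ∈ E, ((if (q p : ℤ) ∣ m then (q p : ℂ) else 0) - 1) =
      ∑ a ∈ (range (∏ p ∈ E, q p)).filter (fun a => ∀ p ∈ E, ¬ q p ∣ a),
        e ((a : ℝ) * m / ((∏ p ∈ E, q p : ℕ) : ℝ)) := by
  set n := ∏ p ∈ E, q p with hn
  have hR : ∑ a ∈ (range n).filter (fun a => ∀ p ∈ E, ¬ q p ∣ a), e ((a : ℝ) * m / (n : ℝ)) =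
      ∑ a ∈ range n, (∏ p ∈ E, ((1 : ℂ) + (if q p ∣ a then -1 else 0))) *
        e ((a : ℝ) * m / (n : ℝ)) := by
    rw [sum_filter]
    refine sum_congr rfl fun a _ => ?_
    split_ifs with h
    · rw [prod_eq_one, one_mul]
      intro p hp
      rw [if_neg (h p hp), add_zero]
    · push Not at h
      obtain ⟨p, hp, hpa⟩ := h
      rw [prod_eq_zero hp, zero_mul]
      rw [if_pos hpa]
      ring
  rw [hR]
  have hL : ∏ p ∈ E, ((if (q p : ℤ) ∣ m then (q p : ℂ) else 0) - 1) =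
      ∑ T ∈ E.powerset, (∏ p ∈ T, (if (q p : ℤ) ∣ m then (q p : ℂ) else 0)) *
        ∏ p ∈ E \ T, (-1 : ℂ) := by
    rw [← Finset.prod_add]
    exact prod_congr rfl fun p _ => by ring
  rw [hL]
  have hR2 : ∀ a ∈ range n, (∏ p ∈ E, ((1 : ℂ) + (if q p ∣ a then -1 else 0))) *
        e ((a : ℝ) * m / (n : ℝ)) =
      ∑ T ∈ E.powerset, (∏ p ∈ E \ T, (-1 : ℂ)) *
        (if (∏ p ∈ E \ T, q p) ∣ a then e ((a : ℝ) * m / (n : ℝ)) else 0) := by
    intro a _
    rw [Finset.prod_add, sum_mul]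
    refine sum_congr rfl fun T hT => ?_
    rw [prod_const_one, one_mul]
    by_cases h : ∀ p ∈ E \ T, q p ∣ a
    · have h1 : (∏ p ∈ E \ T, q p) ∣ a := by
        refine Finset.prod_dvd_of_isRelPrime ?_ h
        intro p hp p' hp' hne
        have hp1 := (mem_sdiff.mp (mem_coe.mp hp)).1
        have hp2 := (mem_sdiff.mp (mem_coe.mp hp')).1
        exact Nat.coprime_iff_isRelPrime.mp (hq p hp1 p' hp2 hne)
      rw [if_pos h1]
      congr 1
      exact prod_congr rfl fun p hp => if_pos (h p hp)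
    · have h1 : ¬ (∏ p ∈ E \ T, q p) ∣ a := by
        intro h2
        apply h
        intro p hp
        exact dvd_trans (dvd_prod_of_mem q hp) h2
      rw [if_neg h1, mul_zero]
      push Not at h
      obtain ⟨p, hp, hpa⟩ := h
      rw [prod_eq_zero hp (if_neg hpa), zero_mul]
  rw [sum_congr rfl hR2, sum_comm]
  refine sum_congr rfl fun T hT => ?_
  rw [mem_powerset] at hT
  rw [← mul_sum, ← sum_filter, mul_comm]
  congr 1
  have hn2 : n = (∏ p ∈ E \ T, q p) * ∏ p ∈ T, q p := by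
    rw [hn, ← prod_sdiff hT]
  have h1 : 1 ≤ ∏ p ∈ T, q p := Nat.one_le_iff_ne_zero.mpr
    (prod_ne_zero_iff.mpr fun p hp => by have := hq1 p (hT hp); omega)
  have h2 : 1 ≤ ∏ p ∈ E \ T, q p := Nat.one_le_iff_ne_zero.mpr
    (prod_ne_zero_iff.mpr fun p hp => by have := hq1 p (mem_sdiff.mp hp).1; omega)
  rw [hn2, orth_dvd _ _ h1 h2, prod_ite_dvd q T fun p hp p' hp' => hq p (hT hp) p' (hT hp')]

private theorem e_mul_conj (a b : ℕ) (t n : ℝ) :
    e (-((a : ℝ) * t / n)) * conj (e (-((b : ℝ) * t / n))) = e (t * (((b : ℤ) - a : ℤ) : ℝ) / n) := by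
  rw [← e_neg, ← e_add]
  congr 1
  push_cast
  ring

private theorem parseval (n : ℕ) (hn : 1 ≤ n) (A : Finset ℕ) (hA : A ⊆ range n) (c : ℕ → ℂ) :
    𝔼 t ∈ range n, ‖∑ a ∈ A, c a * e (-((a : ℝ) * t / n))‖ ^ 2 = ∑ a ∈ A, ‖c a‖ ^ 2 := by
  have hn0 : (n : ℝ) ≠ 0 := by positivity
  have hnc : (n : ℂ) ≠ 0 := by exact_mod_cast hn0
  have key : ∑ t ∈ range n, ‖∑ a ∈ A, c a * e (-((a : ℝ) * t / n))‖ ^ 2 =
      n * ∑ a ∈ A, ‖c a‖ ^ 2 := by
    have hC : ((∑ t ∈ range n, ‖∑ a ∈ A, c a * e (-((a : ℝ) * t / n))‖ ^ 2 : ℝ) : ℂ) =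
        ((n * ∑ a ∈ A, ‖c a‖ ^ 2 : ℝ) : ℂ) := by
      push_cast
      have h1 : ∀ t ∈ range n, ((‖∑ a ∈ A, c a * e (-((a : ℝ) * t / n))‖ : ℂ)) ^ 2 =
          ∑ a ∈ A, ∑ b ∈ A, c a * conj (c b) * e ((t : ℝ) * (((b : ℤ) - a : ℤ) : ℝ) / n) := by
        intro t _
        rw [← Complex.mul_conj', map_sum, sum_mul_sum]
        refine sum_congr rfl fun a _ => sum_congr rfl fun b _ => ?_
        rw [map_mul, ← e_mul_conj a b t n]
        ring
      rw [sum_congr rfl h1, sum_comm, mul_sum]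
      refine sum_congr rfl fun a ha => ?_
      rw [sum_comm]
      have h2 : ∀ b ∈ A, ∑ t ∈ range n, c a * conj (c b) *
          e ((t : ℝ) * (((b : ℤ) - a : ℤ) : ℝ) / n) =
          if b = a then c a * conj (c b) * n else 0 := by
        intro b hb
        rw [← mul_sum, orth n hn]
        have ha' := mem_range.mp (hA ha)
        have hb' := mem_range.mp (hA hb)
        by_cases hab : b = a
        · rw [if_pos hab, if_pos]
          rw [hab]; simp
        · rw [if_neg hab, if_neg, mul_zero]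
          intro hd
          apply hab
          have h3 : |((b : ℤ) - a)| < n := by
            rw [abs_lt]; constructor <;> omega
          have h4 := Int.eq_zero_of_abs_lt_dvd hd h3
          omega
      rw [sum_congr rfl h2, sum_ite_eq' A a, if_pos ha, Complex.mul_conj']
      ring
    exact_mod_cast hC
  rw [Finset.expect_eq_sum_div_card, card_range, key]
  field_simp

theorem pars (r1 : ℕ) (hr1 : 1 ≤ r1) (E : Finset ℕ) (hE : ∀ p ∈ E, p.Prime) (Y : Finset ℕ)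
    (f : ℕ → ℝ) :
    𝔼 t ∈ range (∏ p ∈ E, p ^ r1), (∑ y ∈ Y, f y *
        ∏ p ∈ E, ((if y ≡ t [MOD p ^ r1] then (p : ℝ) ^ r1 else 0) - 1)) ^ 2 =
      ∑ a ∈ AE r1 E, ‖∑ y ∈ Y, (f y : ℂ) *
        e ((a : ℝ) / ((∏ p ∈ E, p ^ r1 : ℕ) : ℝ) * y)‖ ^ 2 := by
  have hq1 : ∀ p ∈ E, 1 ≤ p ^ r1 := fun p hp => Nat.one_le_pow _ _ (hE p hp).pos
  have hq : ∀ p ∈ E, ∀ p' ∈ E, p ≠ p' → Nat.Coprime (p ^ r1) (p' ^ r1) := fun p hp p' hp' hne =>
    Nat.Coprime.pow _ _ ((Nat.coprime_primes (hE p hp) (hE p' hp')).mpr hne)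
  set n := ∏ p ∈ E, p ^ r1 with hn
  have hn1 : 1 ≤ n := Nat.one_le_iff_ne_zero.mpr
    (prod_ne_zero_iff.mpr fun p hp => by have := hq1 p hp; omega)
  have hn0 : (n : ℝ) ≠ 0 := by positivity
  have hAE : AE r1 E = (range n).filter (fun a => ∀ p ∈ E, ¬ p ^ r1 ∣ a) := rfl
  have hsub : AE r1 E ⊆ range n := filter_subset _ _
  rw [← parseval n hn1 (AE r1 E) hsub]
  refine Finset.expect_congr rfl fun t _ => ?_
  have h1 : ((∑ y ∈ Y, f y *
        ∏ p ∈ E, ((if y ≡ t [MOD p ^ r1] then (p : ℝ) ^ r1 else 0) - 1) : ℝ) : ℂ) =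
      ∑ a ∈ AE r1 E, (∑ y ∈ Y, (f y : ℂ) * e ((a : ℝ) / (n : ℝ) * y)) *
        e (-((a : ℝ) * t / n)) := by
    push_cast
    have h2 : ∀ y ∈ Y, (f y : ℂ) *
        ∏ p ∈ E, (((if y ≡ t [MOD p ^ r1] then (p : ℝ) ^ r1 else 0 : ℝ) : ℂ) - 1) =
        ∑ a ∈ AE r1 E, (f y : ℂ) * e ((a : ℝ) / (n : ℝ) * y) * e (-((a : ℝ) * t / n)) := by
      intro y _
      have h3 := prod_sub_one (fun p => p ^ r1) E hq1 hq ((y : ℤ) - t)
      have h4 : ∏ p ∈ E, (((if y ≡ t [MOD p ^ r1] then (p : ℝ) ^ r1 else 0 : ℝ) : ℂ) - 1) =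
          ∏ p ∈ E, ((if ((p ^ r1 : ℕ) : ℤ) ∣ (y : ℤ) - t then ((p ^ r1 : ℕ) : ℂ) else 0) - 1) := by
        refine prod_congr rfl fun p hp => ?_
        have h5 : (y ≡ t [MOD p ^ r1]) ↔ (((p ^ r1 : ℕ) : ℤ) ∣ (y : ℤ) - t) := by
          constructor
          · intro h
            exact (Nat.modEq_iff_dvd.mp h.symm)
          · intro h
            exact (Nat.modEq_iff_dvd.mpr h).symm
        by_cases h6 : y ≡ t [MOD p ^ r1]
        · rw [if_pos h6, if_pos (h5.mp h6)]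
          push_cast
          ring
        · rw [if_neg h6, if_neg (fun h => h6 (h5.mpr h))]
          push_cast
          ring
      rw [h4, h3, mul_sum]
      refine sum_congr rfl fun a _ => ?_
      rw [mul_assoc, ← e_add]
      have h7 : (a : ℝ) * (((y : ℤ) - t : ℤ) : ℝ) / ((∏ p ∈ E, p ^ r1 : ℕ) : ℝ) =
          (a : ℝ) / (n : ℝ) * y + -((a : ℝ) * t / n) := by
        rw [← hn]
        push_cast
        ring
      rw [h7]
    rw [sum_congr rfl h2, sum_comm]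
    refine sum_congr rfl fun a _ => ?_
    rw [sum_mul]
  rw [← h1, Complex.norm_real, Real.norm_eq_abs, sq_abs]

end

end Pool.Agent.Helper67.NX2
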