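import Pool.Agent.Helper92.NX2.Asym
import Pool.Agent.Helper80.NX2.GmAp
import Pool.Agent.Helper81.NX2.GmMoment
import Pool.Agent.Helper84.NX2.RoughSum
import Pool.Agent.Helper46.NX2.PrimesModelOf

/-!
# Project NX2, Part B, module B13: from the primes to the model modulo a large smooth number
-/

set_option autoImplicit false

open Finset
open scoped BigOperators ComplexConjugate

namespace Pool.Agent.Helper67.NX2

open Pool.Agent.Helper57.NX
open Pool.Agent.Helper92.NX2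

noncomputable section

/-- truncation -/
private def trc (h g : ℝ) : ℝ := if |g| ≤ h then g else 0

private theorem abs_trc_le {h : ℝ} (hh : 0 ≤ h) (g : ℝ) : |trc h g| ≤ h := by
  unfold trc
  split_ifs with h1
  · exact h1
  · simpa using hh

private theorem trc_zero {h : ℝ} : trc h 0 = 0 := by
  unfold trc
  split_ifs <;> rfl

private theorem abs_sub_trc_le {h : ℝ} (hh : 0 < h) (g : ℝ) {k : ℕ} (hk : 1 ≤ k) :
    |g - trc h g| ≤ g ^ (2 * k) / h ^ (2 * k - 1) := by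
  have h0 : 0 ≤ g ^ (2 * k) := by rw [pow_mul]; positivity
  unfold trc
  split_ifs with h1
  · rw [sub_self, abs_zero]
    positivity
  · push Not at h1
    rw [sub_zero, le_div_iff₀ (by positivity)]
    have h2 : g ^ (2 * k) = |g| * |g| ^ (2 * k - 1) := by
      rw [← pow_succ', show 2 * k - 1 + 1 = 2 * k by omega, pow_mul, pow_mul, sq_abs]
    rw [h2]
    exact mul_le_mul_of_nonneg_left (pow_le_pow_left₀ hh.le h1.le _) (abs_nonneg g)

private theorem ap_abs_le {q : ℕ} (hq : 1 ≤ q) (S : Finset ℕ) (h : ℕ → ℝ) :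
    ∑ a ∈ range q, |∑ x ∈ S.filter (fun x => x % q = a), h x| ≤ ∑ x ∈ S, |h x| := by
  have h1 : ∑ x ∈ S, |h x| = ∑ a ∈ range q, ∑ x ∈ S.filter (fun x => x % q = a), |h x| := by
    rw [Finset.sum_fiberwise_of_maps_to]
    intro x _
    exact mem_range.mpr (Nat.mod_lt _ hq)
  rw [h1]
  exact sum_le_sum fun a _ => abs_sum_le_sum_abs _ _

private theorem ap_add_le (q : ℕ) (S : Finset ℕ) (f g h : ℕ → ℝ) :
    ∑ a ∈ range q, |∑ x ∈ S.filter (fun x => x % q = a), (f x - h x)| ≤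
      ∑ a ∈ range q, |∑ x ∈ S.filter (fun x => x % q = a), (f x - g x)| +
      ∑ a ∈ range q, |∑ x ∈ S.filter (fun x => x % q = a), (g x - h x)| := by
  rw [← sum_add_distrib]
  refine sum_le_sum fun a _ => ?_
  have h1 : ∑ x ∈ S.filter (fun x => x % q = a), (f x - h x) =
      ∑ x ∈ S.filter (fun x => x % q = a), (f x - g x) +
      ∑ x ∈ S.filter (fun x => x % q = a), (g x - h x) := by
    rw [← sum_add_distrib]
    exact sum_congr rfl fun x _ => by ring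
  rw [h1]
  exact abs_add_le _ _

private theorem FA_nonneg (z : ℕ) (A : Finset ℕ) (x : ℕ) : 0 ≤ FA z A x := by
  unfold FA
  split_ifs
  · exact Real.log_nonneg (one_le_pow₀ (by norm_num))
  · exact le_rfl

private theorem FA_abs_le (z : ℕ) (A : Finset ℕ) (x : ℕ) :
    |FA z A x| ≤ Real.log ((2 : ℝ) ^ z) := by
  rw [abs_of_nonneg (FA_nonneg z A x)]
  unfold FA
  split_ifs
  · exact le_rfl
  · exact Real.log_nonneg (one_le_pow₀ (by norm_num))

private theorem FA_support {z : ℕ} {A : Finset ℕ} (hA : PrA z A) (x : ℕ) (hx : 2 ^ z ≤ x) :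
    FA z A x = 0 := by
  unfold FA
  rw [if_neg]
  intro h
  have := (hA x h).2.1
  omega

private theorem gm_support {F : ℕ → ℝ} {z b : ℕ} (hb : b ≤ z) (hF : ∀ x, 2 ^ z ≤ x → F x = 0)
    (K r0 r1 : ℕ) (PP : Finset ℕ) (x : ℕ) (hx : 2 ^ z ≤ x) : gm F K r0 r1 b PP x = 0 := by
  unfold gm
  refine sum_eq_zero fun S _ => ?_
  unfold DS
  rw [sum_eq_zero, zero_div]
  intro w hw
  rw [bl, mem_Ico] at hw
  have h1 : 2 ^ z ≤ w := by
    have h2 : 2 ^ z = 2 ^ b * 2 ^ (z - b) := by rw [← pow_add]; congr 1; omega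
    have h3 : 2 ^ (z - b) ≤ x / 2 ^ b := by
      rw [Nat.le_div_iff_mul_le (by positivity), mul_comm, ← h2]
      exact hx
    calc 2 ^ z = 2 ^ b * 2 ^ (z - b) := h2
      _ ≤ 2 ^ b * (x / 2 ^ b) := Nat.mul_le_mul_left _ h3
      _ ≤ w := hw.1
  rw [hF w h1]
  ring

private theorem two_rpow (τ : ℝ) (z : ℕ) :
    (2 : ℝ) ^ (τ * z) = Real.exp (τ * Real.log ((2 : ℝ) ^ z)) := by
  rw [Real.rpow_def_of_pos (by norm_num), Real.log_pow]
  congr 1
  ring

private theorem two_pow_eq (z : ℕ) : (2 : ℝ) ^ z = Real.exp (Real.log ((2 : ℝ) ^ z)) := by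
  rw [Real.exp_log (by positivity)]

private theorem blk_facts {s : ℕ} {d : Fin (s + 1) → ℕ} (hd2 : ∀ i, 2 ≤ d i) {γ ε D τ : ℝ}
    {z K : ℕ} (hγ : 1 ≤ γ) (hγd : γ ≤ d 0) (hε : 0 < ε) (hε' : ε ≤ 1 / 8) (hτ : 0 < τ)
    (hK : 1 ≤ K) (hD : (2 : ℝ) ^ (τ * z) ≤ D)
    (hKD : ∀ i, ((K : ℝ) * (3 * D)) ^ (d i) ≤ (2 : ℝ) ^ z)
    (h4 : 4 ≤ Real.exp (τ / 4 * Real.log ((2 : ℝ) ^ z)))
    {b : Option (Fin (s + 1)) → ℕ} (hb : BlkLen d γ ε D b) (o : Option (Fin (s + 1))) :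
    Real.exp (τ / 2 * Real.log ((2 : ℝ) ^ z)) ≤ (2 : ℝ) ^ (b o) ∧ 1 ≤ b o ∧ b o ≤ z ∧
      (z : ℝ) / (b o : ℝ) ≤ 2 / τ := by
  set L := Real.log ((2 : ℝ) ^ z) with hL
  have hL0 : 0 ≤ L := Real.log_nonneg (one_le_pow₀ (by norm_num))
  have hD' : Real.exp (τ * L) ≤ D := by rw [← two_rpow]; exact hD
  have hD1 : 1 ≤ D := le_trans (Real.one_le_exp (by positivity)) hD'
  have hD0 : 0 < D := by linarith
  -- exponents
  have key : ∃ e : ℝ, 3 / 4 ≤ e ∧ D ^ e / 4 ≤ (2 : ℝ) ^ (b o) ∧ (2 : ℝ) ^ (b o) ≤ D ^ e ∧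
      D ^ e ≤ (2 : ℝ) ^ z := by
    have hle : ∀ (i : Fin (s + 1)) (e : ℝ), e ≤ d i → D ^ e ≤ (2 : ℝ) ^ z := by
      intro i e he
      refine le_trans (Real.rpow_le_rpow_of_exponent_le hD1 he) ?_
      rw [Real.rpow_natCast]
      refine le_trans (pow_le_pow_left₀ hD0.le ?_ _) (hKD i)
      have hK' : (1 : ℝ) ≤ K := by exact_mod_cast hK
      nlinarith
    cases o with
    | none =>
      refine ⟨γ - 2 * ε, by linarith, hb.1.1, hb.1.2, hle 0 _ (by linarith)⟩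
    | some i =>
      have hdi : (2 : ℝ) ≤ d i := by exact_mod_cast hd2 i
      refine ⟨(d i : ℝ) - 2 * ε, by linarith, (hb.2 i).1, (hb.2 i).2, hle i _ (by linarith)⟩
  obtain ⟨e, he, hb1, hb2, hb3⟩ := key
  have h1 : Real.exp (τ / 2 * L) ≤ (2 : ℝ) ^ (b o) := by
    refine le_trans ?_ hb1
    have h2 : Real.exp (3 / 4 * (τ * L)) ≤ D ^ e := by
      have h3 : D ^ ((3 : ℝ) / 4) ≤ D ^ e := Real.rpow_le_rpow_of_exponent_le hD1 he
      refine le_trans ?_ h3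
      rw [mul_comm, Real.exp_mul]
      exact Real.rpow_le_rpow (Real.exp_pos _).le hD' (by norm_num)
    rw [le_div_iff₀ (by norm_num)]
    refine le_trans ?_ h2
    calc Real.exp (τ / 2 * L) * 4 ≤ Real.exp (τ / 2 * L) * Real.exp (τ / 4 * L) :=
          mul_le_mul_of_nonneg_left h4 (Real.exp_pos _).le
      _ = Real.exp (3 / 4 * (τ * L)) := by rw [← Real.exp_add]; congr 1; ring
  have h5 : b o ≤ z := by
    have h6 : (2 : ℝ) ^ (b o) ≤ (2 : ℝ) ^ z := hb2.trans hb3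
    exact (pow_le_pow_iff_right₀ (by norm_num)).mp h6
  have hLpos : 0 < L := by
    by_contra hneg
    have hL00 : L = 0 := le_antisymm (not_lt.mp hneg) hL0
    rw [hL00, mul_zero, Real.exp_zero] at h4
    norm_num at h4
  have h7 : τ / 2 * (z : ℝ) ≤ b o := by
    have h8 : τ / 2 * L ≤ Real.log ((2 : ℝ) ^ (b o)) := by
      rw [Real.le_log_iff_exp_le (by positivity)]
      exact h1
    rw [hL, Real.log_pow, Real.log_pow] at h8
    have h9 : 0 < Real.log 2 := Real.log_pos (by norm_num)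
    have h10 : (τ / 2 * z) * Real.log 2 ≤ (b o : ℝ) * Real.log 2 := by linarith
    exact le_of_mul_le_mul_right h10 h9
  have hz0 : 0 < (z : ℝ) := by
    have : z ≠ 0 := by
      rintro rfl
      simp [hL] at hLpos
    positivity
  have hb0 : 0 < (b o : ℝ) := lt_of_lt_of_le (by positivity) h7
  refine ⟨h1, by exact_mod_cast hb0, h5, ?_⟩
  rw [div_le_div_iff₀ hb0 hτ]
  nlinarith

private theorem tendsto_log_two_pow :
    Filter.Tendsto (fun z : ℕ => Real.log ((2 : ℝ) ^ z)) Filter.atTop Filter.atTop := by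
  have h1 : (fun z : ℕ => Real.log ((2 : ℝ) ^ z)) = fun z : ℕ => (z : ℝ) * Real.log 2 := by
    funext z
    rw [Real.log_pow]
  rw [h1]
  exact tendsto_natCast_atTop_atTop.atTop_mul_const (Real.log_pos (by norm_num))

private theorem sum_blocks_le {z b : ℕ} (hb : b ≤ z) (f : ℕ → ℝ) (c : ℝ)
    (h : ∀ j, f j ≤ (2 : ℝ) ^ b * c) : ∑ j ∈ range (2 ^ (z - b)), f j ≤ (2 : ℝ) ^ z * c := by
  calc ∑ j ∈ range (2 ^ (z - b)), f j ≤ ∑ _j ∈ range (2 ^ (z - b)), (2 : ℝ) ^ b * c :=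
        sum_le_sum fun j _ => h j
    _ = (2 : ℝ) ^ z * c := by
        rw [sum_const, card_range, nsmul_eq_mul, ← mul_assoc]
        congr 1
        push_cast
        rw [← pow_add]
        congr 1
        omega

/-- the statement of `replace_ap` -/
def ReplaceApC (s : ℕ) (d : Fin (s + 1) → ℕ) (γ ε : ℝ) : Prop :=
    ∃ x0 : ℝ, 0 < x0 ∧ ∃ C : ℕ, ∃ σ : ℝ, 0 < σ ∧ ∃ D0 : ℝ,
    ∀ (D : ℝ) (K u T z : ℕ), D0 ≤ D → D ≤ u → (u : ℝ) + T ≤ 2 * D → D ^ (1 - x0) ≤ T → 1 ≤ K →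
    (∀ i, ((K : ℝ) * (3 * D)) ^ (d i) ≤ (2 : ℝ) ^ z) →
    ∀ W : ℝ, 2 ≤ W → W ≤ D ^ σ → (K : ℝ) ≤ W →
    ∀ (G : ℕ → ℝ) (f g : Option (Fin (s + 1)) → ℕ → ℝ), (∀ x, |G x| ≤ W) →
    (∀ x t : ℕ, |G (x + t) - G x| ≤ W * t / D ^ (γ - ε)) →
    (∀ o x, |f o x| ≤ W ∧ |g o x| ≤ W) → (∀ o x, 2 ^ z ≤ x → f o x = 0 ∧ g o x = 0) →
    ∀ b : Option (Fin (s + 1)) → ℕ, BlkLen d γ ε D b →
    (∀ o, ∀ q : ℕ, 1 ≤ q → (q : ℝ) ≤ W ^ C →
      ∑ j ∈ range (2 ^ (z - b o)), ∑ a ∈ range q,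
        |∑ x ∈ (bl (b o) j).filter (fun x => x % q = a), (f o x - g o x)| ≤
          2 ^ z / W ^ C) →
    |nform d K u T (2 ^ z) G f - nform d K u T (2 ^ z) G g| ≤ 1 / W

/-- the statement of `var_bound` -/
def VarBoundC : Prop := ∀ r0 r1 : ℕ, 1 ≤ r1 → ∃ C : ℝ, 0 < C ∧ ∀ (z : ℕ) (A : Finset ℕ),
    PrA z A → ∀ b j K R : ℕ, 1 ≤ b → b ≤ z → 2 ≤ R → R ≤ 2 ^ b → 1 ≤ K →
    (K * R ^ (2 * r0 * r1)) ^ 16 ≤ 2 ^ b → (∀ p : ℕ, p.Prime → p ∣ K → p ≤ R) →
    ∀ PP : Finset ℕ, (∀ p ∈ PP, p.Prime ∧ p ≤ R ∧ ¬ p ∣ K) →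
    ∀ (κ : ℕ) (B : Finset ℕ) (ω : ℕ → ℕ), B ⊆ PP → B.card ≤ r0 →
    ∑ E ∈ (PP \ B).powerset.filter (fun E => (B ∪ E).card ≤ r0),
      𝔼 t ∈ range (∏ p ∈ E, p ^ r1),
        DS (FA z A) K r1 b j (B ∪ E) κ (fun p => if p ∈ B then ω p else t) ^ 2 ≤
      (C * (z / b) * Real.log R) ^ 2

theorem stage12_of (s : ℕ) (d : Fin (s + 1) → ℕ) (hd2 : ∀ i, 2 ≤ d i) (γ ε : ℝ) (hγ : 1 ≤ γ)
    (hγd : γ ≤ d 0) (hε : 0 < ε) (hε' : ε ≤ 1 / 8) (hRep : ReplaceApC s d γ ε)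
    (hVar : VarBoundC) (hCell : CellLeC) : Stage12C s d γ ε := by
  obtain ⟨x0, hx0, C, σ0, hσ0, D0, hrep⟩ := hRep
  refine ⟨x0, hx0, ?_⟩
  intro τ V κ σ hτ hV hκ hσ K K1 hK hK1
  obtain ⟨C1, hC1⟩ : ∃ C1, C1 = C + 1 := ⟨_, rfl⟩
  obtain ⟨r, hr⟩ : ∃ r, r = 4 * C1 + 4 := ⟨_, rfl⟩
  have hC11 : 1 ≤ C1 := by omega
  have hC11' : (1 : ℝ) ≤ C1 := by exact_mod_cast hC11
  have hr1 : 1 ≤ r := by omega
  obtain ⟨k, hk⟩ : ∃ k, k = kk C1 := ⟨_, rfl⟩
  have hk1 : 1 ≤ k := by rw [hk, kk]; omega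
  obtain ⟨Cap, hap⟩ := gm_ap r r hr1
  obtain ⟨Chead, hhead⟩ := gm_head r r hr1
  obtain ⟨Cm, hmom⟩ := gm_moment k r r hr1
  obtain ⟨Cv, hCv, hvar⟩ := hVar r r hr1
  obtain ⟨Cc, hCc, hcell⟩ := hCell
  obtain ⟨Ct, hCt, htot⟩ := totient_ratio
  obtain ⟨E, hE⟩ : ∃ E, E = 32 * r * r + 2 + Cap + Chead + Cm := ⟨_, rfl⟩
  obtain ⟨η, hη⟩ : ∃ η, η = min (τ / 4) σ := ⟨_, rfl⟩
  have hη0 : 0 < η := by rw [hη]; exact lt_min (by positivity) hσ
  have hητ : η ≤ τ / 4 := by rw [hη]; exact min_le_left _ _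
  have hησ : η ≤ σ := by rw [hη]; exact min_le_right _ _
  have hwpos : (0 : ℝ) < 1 / (4 * C1) := by positivity
  have hWt : Filter.Tendsto (fun L : ℝ => L ^ ((1 : ℝ) / (4 * C1))) Filter.atTop Filter.atTop :=
    tendsto_rpow_atTop hwpos
  have hev : ∀ᶠ z : ℕ in Filter.atTop, _ := tendsto_log_two_pow.eventually
    ((RR_le_pow C1).and ((yy_ge_quarter).and ((master C1 E η hη0).and
      ((pow_le_exp 2 1 (τ * σ0) (by positivity)).and ((pow_le_exp 0 D0 τ hτ).and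
      ((pow_le_exp 0 4 (τ / 4) (by positivity)).and
      ((numeric hC11 hτ hητ Cm hCv).and
      ((log_pow_le 1 (Cc * (2 / τ) * Ct) _ hwpos).and
      ((hWt.eventually_ge_atTop (max (max 2 K) (max V (2 / κ)))).and
      ((yy_tendsto.eventually_ge_atTop (max 2 K1)).and
      (Filter.eventually_ge_atTop 4)))))))))))
  obtain ⟨z0, hz0⟩ := Filter.eventually_atTop.mp hev
  refine ⟨z0, fun z hz => ?_⟩
  obtain ⟨e1, e2, e3, e4, e5, e6, e7, e8, e9, e10, e11⟩ := hz0 z hz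
  clear hev hz0
  obtain ⟨L, hL⟩ : ∃ L, L = Real.log ((2 : ℝ) ^ z) := ⟨_, rfl⟩
  rw [← hL] at e1 e2 e3 e4 e5 e6 e7 e8 e9 e10 e11
  obtain ⟨y, hy⟩ : ∃ y, y = yy L := ⟨_, rfl⟩
  obtain ⟨R, hR⟩ : ∃ R, R = RR C1 L := ⟨_, rfl⟩
  obtain ⟨W, hW⟩ : ∃ W, W = L ^ ((1 : ℝ) / (4 * C1)) := ⟨_, rfl⟩
  obtain ⟨K2, hK2⟩ : ∃ K2, K2 = sm y R := ⟨_, rfl⟩
  rw [← hy, ← hR, ← hr] at e1
  rw [← hy] at e2 e10
  rw [← hy, ← hR, ← hK2] at e3
  rw [← hR, ← hW, ← hk] at e7
  rw [← hW] at e8 e9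
  rw [pow_zero, mul_one] at e5 e6
  rw [pow_one] at e8
  rw [one_mul] at e4
  have hL1 : 1 ≤ L := by linarith
  have hL0 : 0 < L := by linarith
  have hW2 : 2 ≤ W := (le_max_left _ _).trans ((le_max_left _ _).trans e9)
  have hWK : (K : ℝ) ≤ W := (le_max_right _ _).trans ((le_max_left _ _).trans e9)
  have hWV : V ≤ W := (le_max_left _ _).trans ((le_max_right _ _).trans e9)
  have hWκ : 2 / κ ≤ W := (le_max_right _ _).trans ((le_max_right _ _).trans e9)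
  have hW0 : 0 < W := by linarith
  have hy2 : 2 ≤ y := (le_max_left _ _).trans e10
  have hyK1 : K1 ≤ y := (le_max_right _ _).trans e10
  have hyL : (y : ℝ) ≤ L := by
    rw [hy]
    refine (yy_le L).trans ?_
    rw [Real.sqrt_le_left (by linarith)]
    nlinarith
  have hR2 : 2 ≤ R := by rw [hR]; exact RR_ge C1 L
  have hyR : y ≤ R := by
    rw [hR]
    refine lt_RR C1 L (hyL.trans ?_)
    exact le_self_pow₀ hL1 (by omega)
  have hK21 : 1 ≤ K2 := by rw [hK2]; exact sm_pos y R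
  have hK2p : ∀ p : ℕ, p.Prime → p ∣ K2 → p ≤ y := by
    intro p hp h
    rw [hK2] at h
    exact sm_prime hp h
  have hPP : ∀ p ∈ mp y R, p.Prime ∧ p ≤ R ∧ ¬ p ∣ K2 := by
    intro p hp
    rw [mem_mp] at hp
    refine ⟨hp.2, hp.1.2, fun h => ?_⟩
    have := hK2p p hp.2 h
    omega
  -- powers of `K2 * R`
  have hKR1 : 1 ≤ ((K2 * R : ℕ) : ℝ) := by
    have : 1 ≤ K2 * R := Nat.mul_pos hK21 (by omega)
    exact_mod_cast this
  have hKRe : ∀ e, e ≤ E → ((K2 * R : ℕ) : ℝ) ^ e ≤ Real.exp (η * L) := fun e he =>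
    (pow_le_pow_right₀ hKR1 he).trans e3
  have hX : Real.exp (η * L) ≤ Real.exp (τ / 4 * L) :=
    Real.exp_le_exp.mpr (mul_le_mul_of_nonneg_right hητ hL0.le)
  have hX2 : Real.exp (τ / 4 * L) < Real.exp (τ / 2 * L) :=
    Real.exp_lt_exp.mpr (mul_lt_mul_of_pos_right (by linarith) hL0)
  refine ⟨K2, ?_, hK21, ?_, ?_⟩
  · rw [hK2]
    refine dvd_sm hK1 (hyK1.trans hyR) fun p hp h => ?_
    exact (Nat.le_of_dvd hK1 h).trans hyK1
  · have h1 : (K2 : ℝ) ≤ ((K2 * R : ℕ) : ℝ) ^ 1 := by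
      rw [pow_one]
      have : K2 ≤ K2 * R := Nat.le_mul_of_pos_right _ (by omega)
      exact_mod_cast this
    refine h1.trans ((hKRe 1 (by omega)).trans ?_)
    rw [two_rpow, ← hL]
    exact Real.exp_le_exp.mpr (mul_le_mul_of_nonneg_right hησ hL0.le)
  intro A hA D u T hD hKD hDu huT hDT G hG hGl b hb
  have hblkf := blk_facts hd2 hγ hγd hε hε' hτ hK hD hKD (by rw [← hL]; exact e6) hb
  rw [← hL] at hblkf
  have hD' : Real.exp (τ * L) ≤ D := by rw [hL, ← two_rpow]; exact hD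
  have hD1 : 1 ≤ D := le_trans (Real.one_le_exp (by positivity)) hD'
  have hFL : ∀ x, |FA z A x| ≤ L := fun x => by rw [hL]; exact FA_abs_le z A x
  have hFs : ∀ x, 2 ^ z ≤ x → FA z A x = 0 := FA_support hA
  -- the model and its truncation
  obtain ⟨g0, hg0⟩ : ∃ g0 : Option (Fin (s + 1)) → ℕ → ℝ,
    g0 = fun o x => gm (FA z A) K2 r r (b o) (mp y R) x := ⟨_, rfl⟩
  obtain ⟨g1, hg1⟩ : ∃ g1 : Option (Fin (s + 1)) → ℕ → ℝ,
    g1 = fun o x => trc (W / 2) (g0 o x) := ⟨_, rfl⟩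
  have hg1W : ∀ o x, |g1 o x| ≤ W / 2 := fun o x => by
    rw [hg1]; exact abs_trc_le (by linarith) _
  have hg1s : ∀ o x, 2 ^ z ≤ x → g1 o x = 0 := fun o x hx => by
    rw [hg1, hg0]
    simp only []
    rw [gm_support (hblkf o).2.2.1 hFs K2 r r (mp y R) x hx, trc_zero]
  obtain ⟨V0, hV0⟩ : ∃ V0, V0 = Cv * (2 / τ) * Real.log R := ⟨_, rfl⟩
  have hlogR0 : 0 ≤ Real.log R := by
    refine Real.log_nonneg ?_
    have : (2 : ℝ) ≤ R := by exact_mod_cast hR2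
    linarith
  have hV00 : 0 ≤ V0 := by rw [hV0]; positivity
  have hKR2b : ∀ o e, e ≤ E → ((K2 * R : ℕ) : ℝ) ^ e < (2 : ℝ) ^ (b o) := fun o e he =>
    lt_of_le_of_lt ((hKRe e he).trans hX) (lt_of_lt_of_le hX2 (hblkf o).1)
  -- moments of the model
  have hmoment : ∀ o j, (∑ x ∈ bl (b o) j, g0 o x ^ (2 * k)) / (2 : ℝ) ^ (b o) ≤
      Cm * V0 ^ (2 * k) + L ^ (2 * k) * Real.exp (η * L) / (2 : ℝ) ^ (b o) := by
    intro o j
    have h1 := hmom (FA z A) K2 (b o) j R (mp y R) L V0 hK21 hR2 hPP hFL hV00 (by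
      intro κ' B ω hB hBr
      have hc1 : R ≤ 2 ^ (b o) := by
        have h2 : (R : ℝ) ≤ ((K2 * R : ℕ) : ℝ) ^ 1 := by
          rw [pow_one]
          have : R ≤ K2 * R := Nat.le_mul_of_pos_left _ hK21
          exact_mod_cast this
        have h3 := h2.trans (hKR2b o 1 (by omega)).le
        exact_mod_cast h3
      have hc2 : (K2 * R ^ (2 * r * r)) ^ 16 ≤ 2 ^ (b o) := by
        have h2 : K2 * R ^ (2 * r * r) ≤ (K2 * R) ^ (2 * r * r) := by
          rw [mul_pow]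
          refine Nat.mul_le_mul_right _ ?_
          exact Nat.le_self_pow (by
            have : 1 ≤ 2 * r * r := by nlinarith
            omega) K2
        have h3 : (K2 * R ^ (2 * r * r)) ^ 16 ≤ (K2 * R) ^ (32 * r * r) := by
          refine (Nat.pow_le_pow_left h2 16).trans (le_of_eq ?_)
          rw [← pow_mul]
          congr 1
          ring
        have h4 := (hKR2b o (32 * r * r) (by omega)).le
        have h5 : (K2 * R) ^ (32 * r * r) ≤ 2 ^ (b o) := by exact_mod_cast h4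
        exact h3.trans h5
      have h6 := hvar z A hA (b o) j K2 R (hblkf o).2.1 (hblkf o).2.2.1 hR2 hc1 hK21 hc2
        (fun p hp h => (hK2p p hp h).trans hyR) (mp y R) hPP κ' B ω hB hBr
      refine h6.trans ?_
      refine pow_le_pow_left₀ (by positivity) ?_ 2
      rw [hV0]
      refine mul_le_mul_of_nonneg_right ?_ hlogR0
      exact mul_le_mul_of_nonneg_left (hblkf o).2.2.2 hCv.le)
    rw [hg0]
    refine h1.trans ?_
    refine add_le_add le_rfl ?_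
    refine div_le_div_of_nonneg_right ?_ (by positivity)
    exact mul_le_mul_of_nonneg_left (hKRe Cm (by omega)) (by positivity)
  -- truncation error per block
  have htr : ∀ o j, ∑ x ∈ bl (b o) j, |g0 o x - g1 o x| ≤ (2 : ℝ) ^ (b o) *
      ((Cm * V0 ^ (2 * k) + L ^ (2 * k) * Real.exp (η * L) / (2 : ℝ) ^ (b o)) /
        (W / 2) ^ (2 * k - 1)) := by
    intro o j
    have h1 : ∑ x ∈ bl (b o) j, |g0 o x - g1 o x| ≤
        (∑ x ∈ bl (b o) j, g0 o x ^ (2 * k)) / (W / 2) ^ (2 * k - 1) := by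
      rw [sum_div]
      refine sum_le_sum fun x _ => ?_
      rw [hg1]
      exact abs_sub_trc_le (by linarith) _ hk1
    refine h1.trans ?_
    rw [← mul_div_assoc]
    refine div_le_div_of_nonneg_right ?_ (by positivity)
    have h2 := hmoment o j
    rw [div_le_iff₀ (by positivity)] at h2
    refine h2.trans (le_of_eq ?_)
    ring
  have hnum : ∀ o, L * Real.exp (η * L) / (2 : ℝ) ^ (b o) +
      (Cm * V0 ^ (2 * k) + L ^ (2 * k) * Real.exp (η * L) / (2 : ℝ) ^ (b o)) /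
        (W / 2) ^ (2 * k - 1) ≤ 1 / L ^ (2 * C1) := by
    intro o
    rw [hV0]
    exact e7 _ (hblkf o).1
  have hcomb : ∀ o, L * Real.exp (η * L) + (2 : ℝ) ^ (b o) *
      ((Cm * V0 ^ (2 * k) + L ^ (2 * k) * Real.exp (η * L) / (2 : ℝ) ^ (b o)) /
        (W / 2) ^ (2 * k - 1)) ≤ (2 : ℝ) ^ (b o) * (1 / L ^ (2 * C1)) := by
    intro o
    have h1 := mul_le_mul_of_nonneg_left (hnum o) (by positivity : (0 : ℝ) ≤ 2 ^ (b o))
    refine le_trans (le_of_eq ?_) h1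
    rw [mul_add]
    congr 1
    field_simp
  -- comparison of the primes and the truncated model
  have hcmp1 : ∀ o j q, 1 ≤ q → q ≤ R →
      ∑ a ∈ range q, |∑ x ∈ (bl (b o) j).filter (fun x => x % q = a),
        (FA z A x - g1 o x)| ≤ (2 : ℝ) ^ (b o) * (1 / L ^ (2 * C1)) := by
    intro o j q hq hqR
    have h1 := hap (FA z A) L K2 (b o) j R q (mp y R) hK21 hR2 hq hqR hFL hPP
      (by rw [hK2]; exact dvd_sm_mul hq hqR e1)
      (card_mp_filter hq hqR (by omega) e1)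
    have h2 := ap_add_le q (bl (b o) j) (FA z A) (g0 o) (g1 o)
    have h3 := ap_abs_le hq (bl (b o) j) (fun x => g0 o x - g1 o x)
    refine h2.trans ((add_le_add ?_ (h3.trans (htr o j))).trans (hcomb o))
    rw [hg0]
    exact h1.trans (mul_le_mul_of_nonneg_left (hKRe Cap (by omega)) hL0.le)
  -- comparison of the truncated model and the model modulo `K2`
  have hcmp2 : ∀ o j q, 1 ≤ q → q ≤ R → q ∣ K2 →
      ∑ a ∈ range q, |∑ x ∈ (bl (b o) j).filter (fun x => x % q = a),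
        (g1 o x - Fm (FA z A) K2 (b o) x)| ≤ (2 : ℝ) ^ (b o) * (1 / L ^ (2 * C1)) := by
    intro o j q hq hqR hqK
    have h1 := hhead (FA z A) L K2 (b o) j R q (mp y R) hK21 hR2 hq hqR hFL hPP hqK
    have h2 := ap_add_le q (bl (b o) j) (g1 o) (g0 o) (Fm (FA z A) K2 (b o))
    have h3 := ap_abs_le hq (bl (b o) j) (fun x => g1 o x - g0 o x)
    have h4 : ∑ x ∈ bl (b o) j, |g1 o x - g0 o x| = ∑ x ∈ bl (b o) j, |g0 o x - g1 o x| :=
      sum_congr rfl fun x _ => abs_sub_comm _ _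
    rw [h4] at h3
    rw [add_comm] at h2
    refine h2.trans ((add_le_add ?_ (h3.trans (htr o j))).trans (hcomb o))
    rw [hg0]
    exact h1.trans (mul_le_mul_of_nonneg_left (hKRe Chead (by omega)) hL0.le)
  -- bounds for `Fm`
  have hFm : ∀ o x, |Fm (FA z A) K2 (b o) x| ≤ W := by
    intro o x
    rw [abs_of_nonneg (Fm_nonneg (FA_nonneg z A) _ _ _)]
    have hsq : K2 ^ 2 < 2 ^ (b o) := by
      have h1 : K2 ^ 2 ≤ (K2 * R) ^ 2 :=
        Nat.pow_le_pow_left (Nat.le_mul_of_pos_right _ (by omega)) 2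
      have h2 : (K2 * R) ^ 2 < 2 ^ (b o) := by
        have := hKR2b o 2 (by omega)
        exact_mod_cast this
      exact lt_of_le_of_lt h1 h2
    have h1 := hcell z A hA (b o) (x / 2 ^ (b o)) K2 (hblkf o).2.1 (hblkf o).2.2.1 hK21 hsq
      (x : ZMod K2)
    have h2 := htot K2 y hK21 hy2 hK2p
    have h3 : Real.log y ≤ Real.log L := by
      refine Real.log_le_log ?_ hyL
      have : 0 < y := by omega
      exact_mod_cast this
    have hτ2 : 0 ≤ 2 / τ := by positivity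
    calc Fm (FA z A) K2 (b o) x ≤ Cc * (z / b o) * (K2 / K2.totient) := h1
      _ ≤ Cc * (2 / τ) * (Ct * Real.log y) := by
          refine mul_le_mul (mul_le_mul_of_nonneg_left (hblkf o).2.2.2 hCc.le) h2
            (by positivity) (by positivity)
      _ ≤ Cc * (2 / τ) * (Ct * Real.log L) :=
          mul_le_mul_of_nonneg_left (mul_le_mul_of_nonneg_left h3 hCt.le) (by positivity)
      _ = Cc * (2 / τ) * Ct * Real.log L := by ring
      _ ≤ W := e8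
  have hDγ : 0 < D ^ (γ - ε) := Real.rpow_pos_of_pos (by linarith) _
  have hGW : ∀ W' : ℝ, V ≤ W' → (∀ x, |G x| ≤ W') ∧
      (∀ x t : ℕ, |G (x + t) - G x| ≤ W' * t / D ^ (γ - ε)) := by
    intro W' hW'
    refine ⟨fun x => (hG x).trans hW', fun x t => (hGl x t).trans ?_⟩
    refine div_le_div_of_nonneg_right ?_ hDγ.le
    exact mul_le_mul_of_nonneg_right hW' (Nat.cast_nonneg t)
  have hDσ : L ^ 2 ≤ D ^ σ0 := by
    refine e4.trans ?_
    rw [show τ * σ0 * L = τ * L * σ0 by ring, Real.exp_mul]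
    exact Real.rpow_le_rpow (Real.exp_pos _).le hD' hσ0.le
  have hWL : W ≤ L := by
    rw [hW]
    refine (Real.rpow_le_rpow_of_exponent_le hL1 ?_).trans (le_of_eq (Real.rpow_one L))
    rw [div_le_one (by positivity)]
    linarith
  have hLL2 : L ≤ L ^ 2 := by nlinarith
  have hWL2 : W ≤ L ^ 2 := hWL.trans hLL2
  have hL2C : (L ^ 2) ^ C ≤ L ^ (2 * C1) := by
    rw [← pow_mul]
    exact pow_le_pow_right₀ hL1 (by omega)
  have hWC : W ^ C ≤ L ^ (2 * C1) := (pow_le_pow_left₀ hW0.le hWL2 C).trans hL2C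
  have hfin : ∀ X : ℝ, 0 < X → X ≤ L ^ (2 * C1) →
      (2 : ℝ) ^ z * (1 / L ^ (2 * C1)) ≤ 2 ^ z / X := by
    intro X hX0 hX1
    rw [← mul_one_div ((2 : ℝ) ^ z) X]
    refine mul_le_mul_of_nonneg_left ?_ (by positivity)
    exact one_div_le_one_div_of_le hX0 hX1
  have hD0' : D0 ≤ D := e5.trans hD'
  have step1 := hrep D K u T z hD0' hDu huT hDT hK hKD (L ^ 2) (hW2.trans hWL2) hDσ
    (hWK.trans hWL2) G (fun _ => FA z A) g1 (hGW _ (hWV.trans hWL2)).1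
    (hGW _ (hWV.trans hWL2)).2
    (fun o x => ⟨(hFL x).trans hLL2, (hg1W o x).trans (by linarith)⟩)
    (fun o x hx => ⟨hFs x hx, hg1s o x hx⟩) b hb (by
      intro o q hq hqC
      have hqR : q ≤ R := by
        rw [hR]
        exact lt_RR C1 L (hqC.trans hL2C)
      refine (sum_blocks_le (hblkf o).2.2.1 _ _ fun j => hcmp1 o j q hq hqR).trans ?_
      exact hfin _ (by positivity) hL2C)
  have step2 := hrep D K u T z hD0' hDu huT hDT hK hKD W hW2 (hWL2.trans hDσ)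
    hWK G g1 (fun o => Fm (FA z A) K2 (b o)) (hGW _ hWV).1 (hGW _ hWV).2
    (fun o x => ⟨(hg1W o x).trans (by linarith), hFm o x⟩)
    (fun o x hx => ⟨hg1s o x hx, Fm_support (hblkf o).2.2.1 hFs K2 x hx⟩) b hb (by
      intro o q hq hqC
      have hqy : q ≤ y := by
        have h1 : W ^ C ≤ W ^ C1 := pow_le_pow_right₀ (by linarith) (by omega)
        have h2 : W ^ C1 = L ^ ((1 : ℝ) / 4) := by
          rw [hW, ← Real.rpow_natCast, ← Real.rpow_mul hL0.le]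
          congr 1
          field_simp
        have h3 : (q : ℝ) ≤ y := hqC.trans (h1.trans (by rw [h2]; exact e2))
        exact_mod_cast h3
      have hqK : q ∣ K2 := by
        rw [hK2]
        exact dvd_sm hq (hqy.trans hyR) fun p hp h => (Nat.le_of_dvd hq h).trans hqy
      refine (sum_blocks_le (hblkf o).2.2.1 _ _ fun j =>
        hcmp2 o j q hq (hqy.trans hyR) hqK).trans ?_
      exact hfin _ (by positivity) hWC)
  have h1 : 1 / L ^ 2 ≤ 1 / W := one_div_le_one_div_of_le hW0 hWL2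
  have h2 : 1 / W + 1 / W ≤ κ := by
    rw [div_le_iff₀ hκ] at hWκ
    rw [← add_div, div_le_iff₀ hW0]
    linarith
  exact (abs_sub_le _ _ _).trans ((add_le_add (step1.trans h1) step2).trans h2)

end

end Pool.Agent.Helper67.NX2
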