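import Pool.Agent.Helper92.NX2.SmoothMod

/-!
# Project NX2, Part B: asymptotic inequalities for module B13
-/

set_option autoImplicit false

open Finset Filter

namespace Pool.Agent.Helper92.NX2

noncomputable section

/-- powers against exponentials -/
theorem pow_le_exp (n : ℕ) (B c : ℝ) (hc : 0 < c) :
    ∀ᶠ L : ℝ in atTop, B * L ^ n ≤ Real.exp (c * L) := by
  have h1 : Tendsto (fun L : ℝ => L * (c ^ (n + 1) / (n + 1).factorial)) atTop atTop :=
    tendsto_id.atTop_mul_const (by positivity)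
  filter_upwards [h1.eventually_ge_atTop B, eventually_ge_atTop 0] with L hL hL0
  have h2 := Real.pow_div_factorial_le_exp (c * L) (by positivity) (n + 1)
  refine le_trans ?_ h2
  calc B * L ^ n ≤ (L * (c ^ (n + 1) / (n + 1).factorial)) * L ^ n :=
        mul_le_mul_of_nonneg_right hL (by positivity)
    _ = (c * L) ^ (n + 1) / (n + 1).factorial := by
        rw [mul_pow]; ring

/-- powers of logarithms against powers -/
theorem log_pow_le (n : ℕ) (B a : ℝ) (ha : 0 < a) :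
    ∀ᶠ L : ℝ in atTop, B * Real.log L ^ n ≤ L ^ a := by
  have h1 : Tendsto (fun L : ℝ => a * Real.log L) atTop atTop :=
    Real.tendsto_log_atTop.const_mul_atTop ha
  have h2 := h1.eventually (pow_le_exp n (B / a ^ n) 1 one_pos)
  filter_upwards [h2, eventually_gt_atTop 0] with L hL hL0
  rw [Real.rpow_def_of_pos hL0]
  have h3 : B * Real.log L ^ n = B / a ^ n * (a * Real.log L) ^ n := by
    rw [mul_pow]
    field_simp
  rw [h3]
  refine hL.trans (le_of_eq ?_)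
  congr 1
  ring

/-- the parameter `R` -/
def RR (C : ℕ) (L : ℝ) : ℕ := ⌊L ^ (2 * C)⌋₊ + 2

/-- the parameter `y` -/
def yy (L : ℝ) : ℕ := ⌊Real.sqrt L⌋₊

theorem RR_le (C : ℕ) : ∀ᶠ L : ℝ in atTop, (RR C L : ℝ) ≤ L ^ (2 * C + 1) := by
  filter_upwards [eventually_ge_atTop 3] with L hL
  have h1 : (⌊L ^ (2 * C)⌋₊ : ℝ) ≤ L ^ (2 * C) := Nat.floor_le (by positivity)
  have h2 : 1 ≤ L ^ (2 * C) := one_le_pow₀ (by linarith)
  rw [RR]
  push_cast
  rw [pow_succ]
  nlinarith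

theorem lt_RR (C : ℕ) (L : ℝ) {q : ℕ} (hq : (q : ℝ) ≤ L ^ (2 * C)) : q ≤ RR C L := by
  have h1 : q ≤ ⌊L ^ (2 * C)⌋₊ := Nat.le_floor hq
  rw [RR]
  omega

theorem RR_ge (C : ℕ) (L : ℝ) : 2 ≤ RR C L := by rw [RR]; omega

theorem yy_le (L : ℝ) : (yy L : ℝ) ≤ Real.sqrt L := Nat.floor_le (Real.sqrt_nonneg L)

theorem lt_yy (L : ℝ) : Real.sqrt L < yy L + 1 := Nat.lt_floor_add_one _

theorem yy_tendsto : Tendsto yy atTop atTop :=
  tendsto_nat_floor_atTop.comp Real.tendsto_sqrt_atTop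

theorem RR_le_pow (C : ℕ) : ∀ᶠ L : ℝ in atTop, RR C L ≤ (yy L + 1) ^ (4 * C + 4) := by
  filter_upwards [eventually_ge_atTop 2] with L hL
  have h1 : (⌊L ^ (2 * C)⌋₊ : ℝ) ≤ L ^ (2 * C) := Nat.floor_le (by positivity)
  have h2 : 1 ≤ L ^ (2 * C) := one_le_pow₀ (by linarith)
  have h3 : (RR C L : ℝ) ≤ ((yy L : ℝ) + 1) ^ (4 * C + 4) := by
    have h4 : Real.sqrt L ^ (4 * C + 4) ≤ ((yy L : ℝ) + 1) ^ (4 * C + 4) :=
      pow_le_pow_left₀ (Real.sqrt_nonneg L) (lt_yy L).le _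
    have h5 : Real.sqrt L ^ (4 * C + 4) = L ^ (2 * C) * (L * L) := by
      rw [show 4 * C + 4 = 2 * (2 * C + 2) by ring, pow_mul, Real.sq_sqrt (by linarith),
        pow_add, sq]
    rw [h5] at h4
    refine le_trans ?_ h4
    rw [RR]
    push_cast
    have h6 : 4 ≤ L * L := by nlinarith
    have h7 : L ^ (2 * C) * 4 ≤ L ^ (2 * C) * (L * L) :=
      mul_le_mul_of_nonneg_left h6 (by linarith)
    linarith
  exact_mod_cast h3

theorem yy_ge_quarter : ∀ᶠ L : ℝ in atTop, L ^ ((1 : ℝ) / 4) ≤ yy L := by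
  filter_upwards [eventually_ge_atTop 16] with L hL
  have h1 := lt_yy L
  have hL0 : 0 < L := by linarith
  have h2 : Real.sqrt L = L ^ ((1 : ℝ) / 4) * L ^ ((1 : ℝ) / 4) := by
    rw [← Real.rpow_add hL0, Real.sqrt_eq_rpow]
    norm_num
  have h3 : (2 : ℝ) ≤ L ^ ((1 : ℝ) / 4) := by
    have h4 : (16 : ℝ) ^ ((1 : ℝ) / 4) ≤ L ^ ((1 : ℝ) / 4) :=
      Real.rpow_le_rpow (by norm_num) hL (by norm_num)
    refine le_trans (le_of_eq ?_) h4
    rw [show (16 : ℝ) = 2 ^ (4 : ℝ) by norm_num, ← Real.rpow_mul (by norm_num)]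
    norm_num
  nlinarith

/-- the master bound: every power of `sm * R` is smaller than every power of `2 ^ z` -/
theorem master (C E : ℕ) (η : ℝ) (hη : 0 < η) :
    ∀ᶠ L : ℝ in atTop, (((sm (yy L) (RR C L) * RR C L : ℕ) : ℝ)) ^ E ≤ Real.exp (η * L) := by
  have hB := log_pow_le 1 ((2 * E * (2 * C + 3)) / η) ((1 : ℝ) / 2) (by norm_num)
  filter_upwards [RR_le C, hB, eventually_ge_atTop 2] with L hR hlog hL
  have hL0 : 0 < L := by linarith
  have hlog0 : 0 ≤ Real.log L := Real.log_nonneg (by linarith)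
  have hsq1 : 1 ≤ Real.sqrt L := by
    rw [Real.one_le_sqrt]; linarith
  have hyL : (yy L : ℝ) ≤ L := (yy_le L).trans (by
    rw [Real.sqrt_le_left (by linarith)]; nlinarith)
  have h1 : ((sm (yy L) (RR C L) * RR C L : ℕ) : ℝ) ≤
      Real.exp ((2 * C + 2) * Real.log L * yy L + (2 * C + 1) * Real.log L) := by
    have h2 : ((sm (yy L) (RR C L) : ℕ) : ℝ) ≤ ((yy L : ℝ) * (RR C L : ℝ)) ^ (yy L) := by
      exact_mod_cast sm_le (yy L) (RR C L) (RR_ge C L)
    have h3 : (yy L : ℝ) * (RR C L : ℝ) ≤ L ^ (2 * C + 2) := by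
      rw [pow_succ L (2 * C + 1), mul_comm (L ^ (2 * C + 1))]
      exact mul_le_mul hyL hR (by positivity) hL0.le
    have h4 : L ^ (2 * C + 2) = Real.exp ((2 * C + 2) * Real.log L) := by
      rw [show ((2 : ℝ) * C + 2) = ((2 * C + 2 : ℕ) : ℝ) by push_cast; ring, Real.exp_nat_mul,
        Real.exp_log hL0]
    have h5 : L ^ (2 * C + 1) = Real.exp ((2 * C + 1) * Real.log L) := by
      rw [show ((2 : ℝ) * C + 1) = ((2 * C + 1 : ℕ) : ℝ) by push_cast; ring, Real.exp_nat_mul,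
        Real.exp_log hL0]
    have h6 : Real.exp ((2 * C + 2) * Real.log L) ^ (yy L) =
        Real.exp ((2 * C + 2) * Real.log L * yy L) := by
      rw [← Real.exp_nat_mul, mul_comm]
    rw [Nat.cast_mul, Real.exp_add, ← h6, ← h4, ← h5]
    refine mul_le_mul (h2.trans (pow_le_pow_left₀ (by positivity) h3 _)) hR (by positivity)
      (by positivity)
  refine (pow_le_pow_left₀ (by positivity) h1 E).trans ?_
  rw [← Real.exp_nat_mul]
  refine Real.exp_le_exp.mpr ?_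
  have h7 : (2 * C + 2) * Real.log L * yy L + (2 * C + 1) * Real.log L ≤
      (2 * C + 3) * 2 * (Real.log L * Real.sqrt L) := by
    have h8 : Real.log L * yy L ≤ Real.log L * Real.sqrt L :=
      mul_le_mul_of_nonneg_left (yy_le L) hlog0
    have h9 : Real.log L ≤ Real.log L * Real.sqrt L := by nlinarith
    have hC : (0 : ℝ) ≤ C := by positivity
    nlinarith [mul_nonneg hlog0 (Real.sqrt_nonneg L), mul_le_mul_of_nonneg_left h8 hC,
      mul_le_mul_of_nonneg_left h9 hC]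
  have h10 : (E : ℝ) * ((2 * C + 3) * 2 * (Real.log L * Real.sqrt L)) ≤ η * L := by
    rw [pow_one, ← Real.sqrt_eq_rpow, div_mul_eq_mul_div, div_le_iff₀ hη] at hlog
    have h11 := mul_le_mul_of_nonneg_right hlog (Real.sqrt_nonneg L)
    have h12 : Real.sqrt L * Real.sqrt L = L := Real.mul_self_sqrt hL0.le
    calc (E : ℝ) * ((2 * C + 3) * 2 * (Real.log L * Real.sqrt L)) =
        2 * E * (2 * C + 3) * Real.log L * Real.sqrt L := by ring
      _ ≤ Real.sqrt L * η * Real.sqrt L := h11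
      _ = η * L := by rw [mul_comm (Real.sqrt L) η, mul_assoc, h12]
  exact (mul_le_mul_of_nonneg_left h7 (by positivity)).trans h10

/-- the number of samples -/
def kk (C : ℕ) : ℕ := 2 * C * (2 * C + 1) + 1

theorem rpow_W_pow {C : ℕ} (hC : 1 ≤ C) {L : ℝ} (hL : 1 ≤ L) :
    L ^ (2 * C + 1) ≤ (L ^ ((1 : ℝ) / (4 * C))) ^ (2 * kk C - 1) := by
  have hC' : (1 : ℝ) ≤ C := by exact_mod_cast hC
  have hL0 : 0 < L := by linarith
  rw [← Real.rpow_natCast (L ^ ((1 : ℝ) / (4 * C))), ← Real.rpow_mul hL0.le,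
    ← Real.rpow_natCast L]
  refine Real.rpow_le_rpow_of_exponent_le hL ?_
  have h1 : 2 * kk C - 1 = 4 * C * (2 * C + 1) + 1 := by
    unfold kk
    have : 2 * (2 * C * (2 * C + 1) + 1) = 4 * C * (2 * C + 1) + 2 := by ring
    omega
  rw [h1, div_mul_eq_mul_div, le_div_iff₀ (by positivity)]
  push_cast
  nlinarith

theorem numeric {C : ℕ} (hC : 1 ≤ C) {τ η : ℝ} (hτ : 0 < τ) (hη : η ≤ τ / 4) (Cm : ℕ) {Cv : ℝ}
    (hCv : 0 < Cv) : ∀ᶠ L : ℝ in atTop, ∀ B : ℝ, Real.exp (τ / 2 * L) ≤ B →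
      L * Real.exp (η * L) / B + (Cm * (Cv * (2 / τ) * Real.log (RR C L)) ^ (2 * kk C) +
        L ^ (2 * kk C) * Real.exp (η * L) / B) /
          (L ^ ((1 : ℝ) / (4 * C)) / 2) ^ (2 * kk C - 1) ≤ 1 / L ^ (2 * C) := by
  have hC' : (1 : ℝ) ≤ C := by exact_mod_cast hC
  have hW : ∀ᶠ L : ℝ in atTop, 2 ≤ L ^ ((1 : ℝ) / (4 * C)) :=
    (tendsto_rpow_atTop (by positivity)).eventually_ge_atTop 2
  filter_upwards [RR_le C, hW, pow_le_exp (2 * C + 1) 3 (τ / 4) (by positivity),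
    pow_le_exp (2 * kk C + 2 * C) 3 (τ / 4) (by positivity),
    log_pow_le (2 * kk C) (3 * Cm * (Cv * (2 / τ) * (2 * C + 1)) ^ (2 * kk C) *
      2 ^ (2 * kk C - 1)) 1 one_pos, eventually_ge_atTop 1] with L hR hW h1 h2 h3 hL B hB
  set k := kk C with hk
  set X := Real.exp (τ / 4 * L) with hX
  set W := L ^ ((1 : ℝ) / (4 * C)) with hWdef
  have hL0 : 0 < L := by linarith
  have hX0 : 0 < X := Real.exp_pos _
  have hBX : X * X ≤ B := by
    rw [hX, ← Real.exp_add]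
    refine le_trans (le_of_eq ?_) hB
    congr 1
    ring
  have hB0 : 0 < B := lt_of_lt_of_le (by positivity) hBX
  have hE : Real.exp (η * L) / B ≤ 1 / X := by
    rw [div_le_div_iff₀ hB0 hX0, one_mul]
    refine le_trans (mul_le_mul_of_nonneg_right ?_ hX0.le) hBX
    exact Real.exp_le_exp.mpr (mul_le_mul_of_nonneg_right hη hL0.le)
  have hh1 : 1 ≤ W / 2 := by linarith
  have hlogR : Real.log (RR C L) ≤ (2 * C + 1) * Real.log L := by
    have h5 : (0 : ℝ) < RR C L := by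
      have := RR_ge C L
      positivity
    refine (Real.log_le_log h5 hR).trans (le_of_eq ?_)
    rw [Real.log_pow]
    push_cast
    ring
  have hlogR0 : 0 ≤ Real.log (RR C L) := by
    refine Real.log_nonneg ?_
    have := RR_ge C L
    have h5 : (2 : ℝ) ≤ RR C L := by exact_mod_cast this
    linarith
  have t1 : L * Real.exp (η * L) / B ≤ 1 / (3 * L ^ (2 * C)) := by
    rw [mul_div_assoc]
    refine (mul_le_mul_of_nonneg_left hE hL0.le).trans ?_
    rw [mul_one_div, div_le_div_iff₀ hX0 (by positivity)]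
    calc L * (3 * L ^ (2 * C)) = 3 * L ^ (2 * C + 1) := by ring
      _ ≤ 1 * X := by rw [one_mul]; exact h1
  have t3 : L ^ (2 * k) * Real.exp (η * L) / B / (W / 2) ^ (2 * k - 1) ≤
      1 / (3 * L ^ (2 * C)) := by
    have h6 : 1 ≤ (W / 2) ^ (2 * k - 1) := one_le_pow₀ hh1
    refine (div_le_self (by positivity) h6).trans ?_
    rw [mul_div_assoc]
    refine (mul_le_mul_of_nonneg_left hE (by positivity)).trans ?_
    rw [mul_one_div, div_le_div_iff₀ hX0 (by positivity)]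
    calc L ^ (2 * k) * (3 * L ^ (2 * C)) = 3 * L ^ (2 * k + 2 * C) := by ring
      _ ≤ 1 * X := by rw [one_mul]; exact h2
  have t2 : Cm * (Cv * (2 / τ) * Real.log (RR C L)) ^ (2 * k) / (W / 2) ^ (2 * k - 1) ≤
      1 / (3 * L ^ (2 * C)) := by
    have h7 : L ^ (2 * C + 1) ≤ W ^ (2 * k - 1) := rpow_W_pow hC hL
    have h8 : (Cv * (2 / τ) * Real.log (RR C L)) ^ (2 * k) ≤
        (Cv * (2 / τ) * (2 * C + 1)) ^ (2 * k) * Real.log L ^ (2 * k) := by
      rw [← mul_pow]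
      refine pow_le_pow_left₀ (by positivity) ?_ _
      rw [mul_assoc (Cv * (2 / τ))]
      exact mul_le_mul_of_nonneg_left hlogR (by positivity)
    rw [div_pow, div_div_eq_mul_div, div_le_div_iff₀ (by positivity) (by positivity)]
    rw [Real.rpow_one] at h3
    calc Cm * (Cv * (2 / τ) * Real.log (RR C L)) ^ (2 * k) * 2 ^ (2 * k - 1) *
          (3 * L ^ (2 * C))
        ≤ Cm * ((Cv * (2 / τ) * (2 * C + 1)) ^ (2 * k) * Real.log L ^ (2 * k)) *
          2 ^ (2 * k - 1) * (3 * L ^ (2 * C)) := by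
          have h9 := mul_le_mul_of_nonneg_left h8 (Nat.cast_nonneg (α := ℝ) Cm)
          exact mul_le_mul_of_nonneg_right (mul_le_mul_of_nonneg_right h9 (by positivity))
            (by positivity)
      _ = (3 * Cm * (Cv * (2 / τ) * (2 * C + 1)) ^ (2 * k) * 2 ^ (2 * k - 1) *
          Real.log L ^ (2 * k)) * L ^ (2 * C) := by ring
      _ ≤ L * L ^ (2 * C) := mul_le_mul_of_nonneg_right h3 (by positivity)
      _ = L ^ (2 * C + 1) := by ring
      _ ≤ 1 * W ^ (2 * k - 1) := by rw [one_mul]; exact h7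
  have h10 : 1 / (3 * L ^ (2 * C)) + (1 / (3 * L ^ (2 * C)) + 1 / (3 * L ^ (2 * C))) =
      1 / L ^ (2 * C) := by
    field_simp
    norm_num
  rw [add_div, ← h10]
  exact add_le_add t1 (add_le_add t2 t3)

end

end Pool.Agent.Helper92.NX2
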