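import Mathlib

/-!
# Project NX2, Part B: the smooth modulus of module B13

`sm y R` is the product over the primes `p ≤ y` of the least power of `p` that is `≥ R`.
-/

set_option autoImplicit false

open Finset

namespace Pool.Agent.Helper92.NX2

/-- the product over the primes `p ≤ y` of the least power of `p` which is at least `R` -/
def sm (y R : ℕ) : ℕ := ∏ p ∈ (range (y + 1)).filter Nat.Prime, p ^ Nat.clog p R

theorem sm_pos (y R : ℕ) : 1 ≤ sm y R :=
  Nat.one_le_iff_ne_zero.mpr (prod_ne_zero_iff.mpr fun _ hp =>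
    pow_ne_zero _ (mem_filter.mp hp).2.ne_zero)

theorem sm_prime {y R p : ℕ} (hp : p.Prime) (h : p ∣ sm y R) : p ≤ y := by
  rw [sm, hp.prime.dvd_finsetProd_iff] at h
  obtain ⟨q, hq, hpq⟩ := h
  rw [mem_filter, mem_range] at hq
  have h1 : p = q := (Nat.prime_dvd_prime_iff_eq hp hq.2).mp (hp.dvd_of_dvd_pow hpq)
  omega

theorem pow_dvd_sm {y R p k : ℕ} (hp : p.Prime) (hpy : p ≤ y) (hk : p ^ k ≤ R) :
    p ^ k ∣ sm y R := by
  have h1 : k ≤ Nat.clog p R := by
    have h2 : p ^ k ≤ p ^ Nat.clog p R := hk.trans (Nat.le_pow_clog hp.one_lt R)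
    exact (Nat.pow_le_pow_iff_right hp.one_lt).mp h2
  refine (pow_dvd_pow p h1).trans ?_
  exact dvd_prod_of_mem (fun p => p ^ Nat.clog p R)
    (mem_filter.mpr ⟨mem_range.mpr (by omega), hp⟩)

theorem dvd_sm {y R q : ℕ} (hq : 1 ≤ q) (hqR : q ≤ R)
    (h : ∀ p : ℕ, p.Prime → p ∣ q → p ≤ y) : q ∣ sm y R := by
  rw [Nat.dvd_iff_prime_pow_dvd_dvd]
  intro p k hp hk
  rcases Nat.eq_zero_or_pos k with rfl | hk0
  · simp
  · exact pow_dvd_sm hp (h p hp ((dvd_pow_self p hk0.ne').trans hk))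
      ((Nat.le_of_dvd hq hk).trans hqR)

theorem sm_le (y R : ℕ) (hR : 2 ≤ R) : sm y R ≤ (y * R) ^ y := by
  rcases Nat.eq_zero_or_pos y with rfl | hy
  · simp [sm, Finset.filter_singleton, Nat.not_prime_zero]
  have h1 : sm y R ≤ ∏ p ∈ (range (y + 1)).filter Nat.Prime, (y * R) := by
    refine prod_le_prod' fun p hp => ?_
    rw [mem_filter, mem_range] at hp
    have h2 : 1 ≤ Nat.clog p R := Nat.clog_pos hp.2.one_lt hR
    have h3 : p ^ (Nat.clog p R).pred < R := Nat.pow_pred_clog_lt_self hp.2.one_lt (by omega)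
    have h4 : p ^ Nat.clog p R = p * p ^ (Nat.clog p R).pred := by
      conv_lhs => rw [← Nat.succ_pred_eq_of_pos h2]
      rw [pow_succ, mul_comm]
    rw [h4]
    exact Nat.mul_le_mul (by omega) h3.le
  refine h1.trans ?_
  rw [prod_const]
  refine Nat.pow_le_pow_right (Nat.mul_pos hy (by omega)) ?_
  have h2 : (range (y + 1)).filter Nat.Prime ⊆ Icc 1 y := by
    intro p hp
    rw [mem_filter, mem_range] at hp
    rw [mem_Icc]
    exact ⟨hp.2.one_le, by omega⟩
  calc ((range (y + 1)).filter Nat.Prime).card ≤ (Icc 1 y).card := card_le_card h2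
    _ = y := by simp

/-- the primes in `(y, R]` -/
def mp (y R : ℕ) : Finset ℕ := (Ioc y R).filter Nat.Prime

theorem mem_mp {y R p : ℕ} : p ∈ mp y R ↔ (y < p ∧ p ≤ R) ∧ p.Prime := by
  rw [mp, mem_filter, mem_Ioc]

theorem dvd_sm_mul {y R q r : ℕ} (hq : 1 ≤ q) (hqR : q ≤ R) (hr : R ≤ (y + 1) ^ r) :
    q ∣ sm y R * ∏ p ∈ (mp y R).filter (fun p => p ∣ q), p ^ r := by
  rw [Nat.dvd_iff_prime_pow_dvd_dvd]
  intro p k hp hk
  rcases Nat.eq_zero_or_pos k with rfl | hk0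
  · simp
  have hpq : p ∣ q := (dvd_pow_self p hk0.ne').trans hk
  have hkR : p ^ k ≤ R := (Nat.le_of_dvd hq hk).trans hqR
  by_cases hpy : p ≤ y
  · exact Dvd.dvd.mul_right (pow_dvd_sm hp hpy hkR) _
  · push Not at hpy
    have h1 : p ∈ (mp y R).filter (fun p => p ∣ q) := by
      rw [mem_filter, mem_mp]
      exact ⟨⟨⟨hpy, (Nat.le_of_dvd hq hpq).trans hqR⟩, hp⟩, hpq⟩
    have h2 : k ≤ r := by
      have h3 : p ^ k ≤ p ^ r := hkR.trans (hr.trans (Nat.pow_le_pow_left hpy r))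
      exact (Nat.pow_le_pow_iff_right hp.one_lt).mp h3
    exact Dvd.dvd.mul_left ((pow_dvd_pow p h2).trans
      (dvd_prod_of_mem (fun p => p ^ r) h1)) _

theorem card_mp_filter {y R q r : ℕ} (hq : 1 ≤ q) (hqR : q ≤ R) (hy : 1 ≤ y)
    (hr : R ≤ (y + 1) ^ r) : ((mp y R).filter (fun p => p ∣ q)).card ≤ r := by
  have h1 : ∏ p ∈ (mp y R).filter (fun p => p ∣ q), p ∣ q := by
    refine Finset.prod_primes_dvd q ?_ ?_
    · intro p hp
      exact ((mem_mp.mp (mem_filter.mp hp).1).2).prime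
    · intro p hp
      exact (mem_filter.mp hp).2
  have h2 : (y + 1) ^ ((mp y R).filter (fun p => p ∣ q)).card ≤
      ∏ p ∈ (mp y R).filter (fun p => p ∣ q), p := by
    rw [← prod_const]
    refine prod_le_prod' fun p hp => ?_
    have := (mem_mp.mp (mem_filter.mp hp).1).1.1
    omega
  have h3 := (h2.trans (Nat.le_of_dvd hq h1)).trans (hqR.trans hr)
  exact (Nat.pow_le_pow_iff_right (by omega)).mp h3

end Pool.Agent.Helper92.NX2
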